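import Mathlib

/-!
# Glauber dynamics of the `±1` spin glass: definitions (MP_c171fe_pr)

`V` is the set of vertices, `E` the set of edges, `a e`, `b e` the end points of `e`; spins
`σ : V → Bool` and couplings `J : E → Bool` (`true` is `+1`, `false` is `-1`).
-/

namespace Pool.Agent.SGZ

open Finset

/-- the sign `±1` of a Boolean -/
def sg (x : Bool) : ℝ := if x then 1 else -1

section

variable {V E : Type*} [Fintype V] [DecidableEq V] [Fintype E]

/-- `H(σ) = ∑_e J_e σ_(a e) σ_(b e)` -/
noncomputable def energy (a b : E → V) (J : E → Bool) (σ : V → Bool) : ℝ :=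
  ∑ e, sg (J e) * sg (σ (a e)) * sg (σ (b e))

/-- the Gibbs weight `exp (β H(σ))` -/
noncomputable def weight (a b : E → V) (β : ℝ) (J : E → Bool) (σ : V → Bool) : ℝ :=
  Real.exp (β * energy a b J σ)

/-- the probability measure proportional to `w` -/
noncomputable def gibbs (w : (V → Bool) → ℝ) (σ : V → Bool) : ℝ := w σ / ∑ τ, w τ

/-- the transition matrix of the Glauber (heat bath) dynamics of the measure proportional to `w`: a
uniform vertex `v` is chosen and `σ v` is resampled from its conditional law -/
noncomputable def glauber (w : (V → Bool) → ℝ) : Matrix (V → Bool) (V → Bool) ℝ :=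
  fun σ τ => (Fintype.card V : ℝ)⁻¹ * ∑ v, if (∀ u, u ≠ v → τ u = σ u) then
    w τ / (w (Function.update σ v true) + w (Function.update σ v false)) else 0

/-- the total variation distance to equilibrium is at most `1/4` at time `t`, for every start -/
def Mixed (w : (V → Bool) → ℝ) (t : ℕ) : Prop :=
  ∀ σ, 1 / 2 * ∑ τ, |(glauber w ^ t) σ τ - gibbs w τ| ≤ 1 / 4

/-- `t_mix ≥ T`, where `t_mix` is the least `t` with `Mixed w t` -/
def MixGe (w : (V → Bool) → ℝ) (T : ℝ) : Prop := ∀ t : ℕ, Mixed w t → T ≤ t

/-- the probability of an event, for independent couplings which are `±1` with probability `1/2` -/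
noncomputable def prob (A : Set (E → Bool)) : ℝ := (A.ncard : ℝ) / 2 ^ Fintype.card E

end

/-- the vertices of the torus of side `n + 3` -/
abbrev TV (d n : ℕ) := Fin d → ZMod (n + 3)

/-- the edges of the torus of side `n + 3`: `(u, i)` is the edge between `u` and `u + e_i` (every
nearest neighbour edge is obtained exactly once, as the side is at least `3`) -/
abbrev TE (d n : ℕ) := TV d n × Fin d

def src (d n : ℕ) (e : TE d n) : TV d n := e.1

def tgt (d n : ℕ) (e : TE d n) : TV d n := e.1 + Pi.single e.2 1

/-- `P_J (t_mix(J, β) ≥ T)` on the torus of side `n + 3` -/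
noncomputable def probMixGe (d n : ℕ) (β T : ℝ) : ℝ :=
  prob {J : TE d n → Bool | MixGe (weight (src d n) (tgt d n) β J) T}

end Pool.Agent.SGZ
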