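import Pool.Agent.SGZ.St

namespace Pool.Agent.SGZ

open Finset

namespace MCMP

lemma harm (a b a' b' κ : ℝ) (ha : 0 < a) (hb : 0 < b) (ha' : 0 < a') (hb' : 0 < b')
    (h1 : a ≤ κ * a') (h2 : b ≤ κ * b') : a * b / (a + b) ≤ κ * (a' * b' / (a' + b')) := by
  rw [← mul_div_assoc, div_le_div_iff₀ (by positivity) (by positivity)]
  have e1 : (a * a') * b ≤ (a * a') * (κ * b') := mul_le_mul_of_nonneg_left h2 (by positivity)
  have e2 : (b * b') * a ≤ (b * b') * (κ * a') := mul_le_mul_of_nonneg_left h1 (by positivity)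
  nlinarith [e1, e2]

variable {V : Type} [Fintype V] [DecidableEq V]

lemma dir_le (w w' : (V → Bool) → ℝ) (κ : ℝ) (hw : ∀ σ, 0 < w σ) (hw' : ∀ σ, 0 < w' σ)
    (h : ∀ σ, w σ ≤ κ * w' σ) (f : (V → Bool) → ℝ) : dir w f ≤ κ * dir w' f := by
  unfold dir
  rw [mul_left_comm]
  refine mul_le_mul_of_nonneg_left ?_ (by positivity)
  rw [Finset.mul_sum]
  refine Finset.sum_le_sum fun v _ => ?_
  rw [Finset.mul_sum]
  refine Finset.sum_le_sum fun σ _ => ?_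
  rw [← mul_assoc κ, mul_left_comm κ]
  refine mul_le_mul_of_nonneg_right ?_ (sq_nonneg _)
  refine mul_le_mul_of_nonneg_left ?_ (by norm_num)
  exact harm _ _ _ _ κ (hw _) (hw _) (hw' _) (hw' _) (h _) (h _)

end MCMP

theorem t_CMP : S_CMP := by
  intro V _ _ w w' g κ hw hw' hg hκ h1 h2 hG f
  obtain ⟨c, hc⟩ := hG f
  refine ⟨c, ?_⟩
  have e1 : ∑ σ, w' σ * (f σ - c) ^ 2 ≤ κ * ∑ σ, w σ * (f σ - c) ^ 2 := by
    rw [Finset.mul_sum]
    refine Finset.sum_le_sum fun σ _ => ?_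
    rw [← mul_assoc]
    exact mul_le_mul_of_nonneg_right (h2 σ) (sq_nonneg _)
  have e2 := MCMP.dir_le w w' κ hw hw' h1 f
  calc g / κ ^ 2 * ∑ σ, w' σ * (f σ - c) ^ 2
      ≤ g / κ ^ 2 * (κ * ∑ σ, w σ * (f σ - c) ^ 2) :=
        mul_le_mul_of_nonneg_left e1 (by positivity)
    _ = (g * ∑ σ, w σ * (f σ - c) ^ 2) / κ := by field_simp
    _ ≤ (κ * dir w' f) / κ := div_le_div_of_nonneg_right (hc.trans e2) hκ.le
    _ = dir w' f := by field_simp

end Pool.Agent.SGZ
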