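import Pool.Agent.SGZ.St

/-!
# SGZ, module GEN: the general theorem, for every finite graph
-/

set_option autoImplicit false
set_option linter.unusedSectionVars false

namespace Pool.Agent.SGZ

open Finset

namespace MGEN

theorem sg_abs (x : Bool) : |sg x| = 1 := by
  cases x <;> simp [sg]

theorem sg_sub (x y : Bool) : |sg x - sg y| = if x ≠ y then 2 else 0 := by
  cases x <;> cases y <;> norm_num [sg]

section

variable {V E : Type} [Fintype V] [DecidableEq V] [Fintype E] [DecidableEq E]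

theorem energy_le (a b : E → V) (J : E → Bool) (σ : V → Bool) :
    |energy a b J σ| ≤ Fintype.card E := by
  unfold energy
  refine (abs_sum_le_sum_abs _ _).trans ?_
  have : ∀ e ∈ (univ : Finset E), |sg (J e) * sg (σ (a e)) * sg (σ (b e))| ≤ (1 : ℝ) := by
    intro e _
    rw [abs_mul, abs_mul, sg_abs, sg_abs, sg_abs]
    norm_num
  refine (sum_le_sum this).trans ?_
  simp

theorem energy_sub (a b : E → V) (J J' : E → Bool) (σ : V → Bool) :
    energy a b J σ - energy a b J' σ ≤ 2 * (hammingDist J J' : ℝ) := by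
  unfold energy
  rw [← sum_sub_distrib]
  have h1 : ∀ e ∈ (univ : Finset E), sg (J e) * sg (σ (a e)) * sg (σ (b e)) -
      sg (J' e) * sg (σ (a e)) * sg (σ (b e)) ≤ if J e ≠ J' e then 2 else 0 := by
    intro e _
    have h2 : sg (J e) * sg (σ (a e)) * sg (σ (b e)) -
      sg (J' e) * sg (σ (a e)) * sg (σ (b e)) =
        (sg (J e) - sg (J' e)) * sg (σ (a e)) * sg (σ (b e)) := by ring
    rw [h2]
    refine (le_abs_self _).trans ?_
    rw [abs_mul, abs_mul, sg_abs, sg_abs, sg_sub, mul_one, mul_one]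
  refine (sum_le_sum h1).trans ?_
  rw [← sum_filter, sum_const, nsmul_eq_mul, mul_comm]
  unfold hammingDist
  exact le_rfl

theorem weight_pos (a b : E → V) (β : ℝ) (J : E → Bool) (σ : V → Bool) :
    0 < weight a b β J σ := Real.exp_pos _

theorem weight_le (a b : E → V) {β : ℝ} (hβ : 0 < β) (J J' : E → Bool) (σ : V → Bool) :
    weight a b β J σ ≤ Real.exp (2 * β * (hammingDist J J' : ℝ)) * weight a b β J' σ := by
  unfold weight
  rw [← Real.exp_add, Real.exp_le_exp]
  have h := mul_le_mul_of_nonneg_left (energy_sub a b J J' σ) hβ.le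
  nlinarith

theorem ratio_le (a b : E → V) {β : ℝ} (hβ : 0 < β) (J : E → Bool) (σ : V → Bool) :
    (∑ τ, weight a b β J τ) / weight a b β J σ ≤
      Real.exp (2 * β * Fintype.card E + Fintype.card V) := by
  rw [div_le_iff₀ (weight_pos a b β J σ)]
  have h1 : ∀ τ ∈ (univ : Finset (V → Bool)), weight a b β J τ ≤
      Real.exp (β * Fintype.card E) := by
    intro τ _
    unfold weight
    rw [Real.exp_le_exp]
    exact mul_le_mul_of_nonneg_left ((le_abs_self _).trans (energy_le a b J τ)) hβ.le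
  have h2 : Real.exp (-(β * Fintype.card E)) ≤ weight a b β J σ := by
    unfold weight
    rw [Real.exp_le_exp]
    have h3 := (abs_le.1 (energy_le a b J σ)).1
    have := mul_le_mul_of_nonneg_left h3 hβ.le
    linarith
  have h4 : ((2 : ℝ)) ^ Fintype.card V ≤ Real.exp (Fintype.card V) := by
    have h5 : (2 : ℝ) ≤ Real.exp 1 := by
      have := Real.add_one_le_exp (1 : ℝ)
      linarith
    calc (2 : ℝ) ^ Fintype.card V ≤ Real.exp 1 ^ Fintype.card V :=
          pow_le_pow_left₀ (by norm_num) h5 _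
      _ = Real.exp (Fintype.card V) := by
          rw [← Real.exp_nat_mul, mul_one]
  calc ∑ τ, weight a b β J τ ≤ ∑ _τ : V → Bool, Real.exp (β * Fintype.card E) :=
        sum_le_sum h1
    _ = (2 : ℝ) ^ Fintype.card V * Real.exp (β * Fintype.card E) := by
        rw [sum_const, nsmul_eq_mul, card_univ, Fintype.card_fun, Fintype.card_bool]
        push_cast
        rfl
    _ ≤ Real.exp (Fintype.card V) * Real.exp (β * Fintype.card E) :=
        mul_le_mul_of_nonneg_right h4 (Real.exp_pos _).le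
    _ = Real.exp (2 * β * Fintype.card E + Fintype.card V) *
        Real.exp (-(β * Fintype.card E)) := by
        rw [← Real.exp_add, ← Real.exp_add]
        congr 1
        ring
    _ ≤ _ := mul_le_mul_of_nonneg_left h2 (Real.exp_pos _).le

theorem not_mixed_zero [Nonempty V] (w : (V → Bool) → ℝ) : ¬ Mixed w 0 := by
  intro h
  have hne : (fun _ : V => true) ≠ (fun _ : V => false) := by
    intro h1
    obtain ⟨v⟩ := ‹Nonempty V›
    have := congrFun h1 v
    simp at this
  have key : ∀ σ τ : V → Bool, σ ≠ τ → |1 - gibbs w σ| + |gibbs w τ| ≤ 1 / 2 := by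
    intro σ τ hστ
    have h1 := h σ
    rw [pow_zero] at h1
    have h2 : ∑ ρ ∈ ({σ, τ} : Finset (V → Bool)),
        |(1 : Matrix (V → Bool) (V → Bool) ℝ) σ ρ - gibbs w ρ| ≤
        ∑ ρ, |(1 : Matrix (V → Bool) (V → Bool) ℝ) σ ρ - gibbs w ρ| :=
      sum_le_sum_of_subset_of_nonneg (subset_univ _) fun _ _ _ => abs_nonneg _
    rw [sum_pair hστ, Matrix.one_apply_eq, Matrix.one_apply_ne hστ, zero_sub, abs_neg] at h2
    linarith
  have k1 := key _ _ hne
  have k2 := key _ _ (Ne.symm hne)
  have a1 := abs_add_le (1 - gibbs w fun _ : V => true) (gibbs w fun _ : V => true)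
  have a2 := abs_add_le (1 - gibbs w fun _ : V => false) (gibbs w fun _ : V => false)
  rw [sub_add_cancel, abs_one] at a1 a2
  linarith

theorem gap_mono {w : (V → Bool) → ℝ} (hw : ∀ σ, 0 < w σ) {g g' : ℝ} (hg : g' ≤ g)
    (h : Gap w g) : Gap w g' := by
  intro f
  obtain ⟨c, hc⟩ := h f
  refine ⟨c, le_trans ?_ hc⟩
  refine mul_le_mul_of_nonneg_right hg ?_
  exact sum_nonneg fun σ _ => mul_nonneg (hw σ).le (sq_nonneg _)

/-- the main step -/
theorem dist_le (hUPP : S_UPP) (hLOW : S_LOW) (hCMP : S_CMP) [Nonempty V]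
    (a b : E → V) {β K S T : ℝ} (hβ : 0 < β) (hS : 1 ≤ S)
    (hK : K = 2 * β * Fintype.card E + Fintype.card V + 2) (hT : 3 * K * S ≤ T)
    (J J' : E → Bool) (hJ : ¬ MixGe (weight a b β J) S) (hJ' : MixGe (weight a b β J') T) :
    Real.log (T / (3 * K * S)) / (4 * β) ≤ (hammingDist J J' : ℝ) := by
  have hK2 : 2 ≤ K := by
    rw [hK]
    have h1 : 0 ≤ 2 * β * (Fintype.card E : ℝ) := by positivity
    have h2 : (0 : ℝ) ≤ Fintype.card V := by positivity
    linarith
  have hKS : 0 < 3 * K * S := by positivity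
  have hT0 : 0 < T := lt_of_lt_of_le hKS hT
  unfold MixGe at hJ
  push Not at hJ
  obtain ⟨t, ht, htS⟩ := hJ
  have ht1 : 1 ≤ t := by
    rcases Nat.eq_zero_or_pos t with h | h
    · subst h; exact absurd ht (not_mixed_zero _)
    · exact h
  have hgap := hLOW V (weight a b β J) t (weight_pos a b β J) ht1 ht
  have ht0 : (0 : ℝ) < t := by exact_mod_cast ht1
  have hS0 : 0 < S := by linarith
  have hgap2 : Gap (weight a b β J) (1 / (2 * S)) := by
    refine gap_mono (weight_pos a b β J) ?_ hgap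
    exact one_div_le_one_div_of_le (by positivity) (by linarith)
  obtain ⟨κ, hκ⟩ : ∃ κ : ℝ, κ = Real.exp (2 * β * (hammingDist J J' : ℝ)) := ⟨_, rfl⟩
  have hκ0 : 0 < κ := by rw [hκ]; exact Real.exp_pos _
  have hκ1 : 1 ≤ κ := by
    rw [hκ]
    exact Real.one_le_exp (by positivity)
  have hgap3 := hCMP V (weight a b β J) (weight a b β J') (1 / (2 * S)) κ (weight_pos a b β J)
    (weight_pos a b β J') (by positivity) hκ0
    (fun σ => by rw [hκ]; exact weight_le a b hβ J J' σ)
    (fun σ => by rw [hκ, hammingDist_comm]; exact weight_le a b hβ J' J σ) hgap2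
  obtain ⟨g, hg⟩ : ∃ g : ℝ, g = 1 / (2 * S) / κ ^ 2 := ⟨_, rfl⟩
  rw [← hg] at hgap3
  have hg0 : 0 < g := by rw [hg]; positivity
  have hmix := hUPP V (weight a b β J') g K ⌈K / g⌉₊ (weight_pos a b β J') hg0 hgap3
    (fun σ => by
      refine (ratio_le a b hβ J' σ).trans (le_of_eq ?_)
      rw [hK]
      congr 1
      ring)
    (by
      have h1 := Nat.le_ceil (K / g)
      rw [div_le_iff₀ hg0] at h1
      linarith)
  have h1 := hJ' _ hmix
  have h2 : ((⌈K / g⌉₊ : ℕ) : ℝ) < K / g + 1 :=
    Nat.ceil_lt_add_one (div_nonneg (by linarith) hg0.le)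
  have h3 : K / g = 2 * K * S * κ ^ 2 := by
    rw [hg]; field_simp
  have h4 : 1 ≤ K * S * κ ^ 2 := by
    have h5 : 1 ≤ κ ^ 2 := one_le_pow₀ hκ1
    have h6 : 1 ≤ K * S := by nlinarith
    nlinarith
  have h5 : T ≤ 3 * K * S * κ ^ 2 := by
    have h2' := lt_of_le_of_lt h1 h2
    rw [h3] at h2'
    nlinarith
  have h6 : κ ^ 2 = Real.exp (4 * β * (hammingDist J J' : ℝ)) := by
    rw [hκ, ← Real.exp_nat_mul]
    congr 1
    push_cast
    ring
  have h7 : T / (3 * K * S) ≤ Real.exp (4 * β * (hammingDist J J' : ℝ)) := by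
    rw [div_le_iff₀ hKS, ← h6]
    linarith
  have h8 : Real.log (T / (3 * K * S)) ≤ 4 * β * (hammingDist J J' : ℝ) := by
    rw [Real.log_le_iff_le_exp (div_pos hT0 hKS)]
    exact h7
  rw [div_le_iff₀ (by positivity)]
  linarith

end

end MGEN

open MGEN in
theorem t_GEN (hUPP : S_UPP) (hLOW : S_LOW) (hCMP : S_CMP) (hHAM : S_HAM) : S_GEN := by
  intro V E _ _ _ _ _ a b β K S T hβ hS hK hT
  classical
  have hK2 : 2 ≤ K := by
    rw [hK]
    have h1 : 0 ≤ 2 * β * (Fintype.card E : ℝ) := by positivity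
    have h2 : (0 : ℝ) ≤ Fintype.card V := by positivity
    linarith
  have hKS : 0 < 3 * K * S := by positivity
  have hD0 : 0 ≤ Real.log (T / (3 * K * S)) / (4 * β) := by
    refine div_nonneg (Real.log_nonneg ?_) (by positivity)
    rw [le_div_iff₀ hKS, one_mul]
    exact hT
  have hA : ({J : E → Bool | ¬ MixGe (weight a b β J) S}).ncard =
      (univ.filter fun J : E → Bool => ¬ MixGe (weight a b β J) S).card := by
    rw [← Set.ncard_coe_finset]
    congr 1
    ext J
    simp
  have hB : ({J : E → Bool | MixGe (weight a b β J) T}).ncard =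
      (univ.filter fun J : E → Bool => MixGe (weight a b β J) T).card := by
    rw [← Set.ncard_coe_finset]
    congr 1
    ext J
    simp
  have hmain := hHAM E (univ.filter fun J : E → Bool => ¬ MixGe (weight a b β J) S)
    (univ.filter fun J : E → Bool => MixGe (weight a b β J) T)
    (Real.log (T / (3 * K * S)) / (4 * β)) hD0
    (by
      intro x hx y hy
      rw [mem_filter] at hx hy
      exact dist_le hUPP hLOW hCMP a b hβ hS hK hT x y hx.2 hy.2)
  unfold prob
  rw [hA, hB, div_mul_div_comm, ← mul_pow, div_le_iff₀ (by positivity)]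
  refine hmain.trans (le_of_eq ?_)
  have e1 : (Real.log (T / (3 * K * S)) / (4 * β)) ^ 2 / (Fintype.card E : ℝ) =
      Real.log (T / (3 * K * S)) ^ 2 / (16 * β ^ 2 * Fintype.card E) := by
    rw [div_pow, div_div]
    congr 1
    ring
  rw [e1]
  norm_num
  ring

end Pool.Agent.SGZ
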