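import Pool.Agent.SGZ.St

set_option autoImplicit false

/-! # SGZ, module HAM: two sets of the cube at large Hamming distance -/

namespace Pool.Agent.SGZ

open Finset

namespace MHAM

theorem two (l s t : ℝ) (h : |s - t| ≤ 1) :
    Real.exp (l * s) + Real.exp (l * t) ≤
      2 * Real.exp (l ^ 2 / 8) * Real.exp (l * ((s + t) / 2)) := by
  have e1 : Real.exp (l * s) =
      Real.exp (l * ((s + t) / 2)) * Real.exp (l * (s - t) / 2) := by
    rw [← Real.exp_add]; congr 1; ring
  have e2 : Real.exp (l * t) =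
      Real.exp (l * ((s + t) / 2)) * Real.exp (-(l * (s - t) / 2)) := by
    rw [← Real.exp_add]; congr 1; ring
  have h1 : Real.exp (l * s) + Real.exp (l * t) =
      2 * Real.cosh (l * (s - t) / 2) * Real.exp (l * ((s + t) / 2)) := by
    rw [Real.cosh_eq, e1, e2]
    ring
  rw [h1]
  have h2 : Real.cosh (l * (s - t) / 2) ≤ Real.exp (l ^ 2 / 8) := by
    refine (Real.cosh_le_exp_half_sq _).trans (Real.exp_le_exp.2 ?_)
    have h3 : (s - t) ^ 2 ≤ 1 := by
      rw [← sq_abs]
      exact pow_le_one₀ (abs_nonneg _) h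
    have h4 := mul_le_mul_of_nonneg_left h3 (sq_nonneg l)
    linarith
  have h5 := Real.exp_pos (l * ((s + t) / 2))
  exact mul_le_mul_of_nonneg_right (by linarith) h5.le

theorem sum_cons (m : ℕ) (f : (Fin (m + 1) → Bool) → ℝ) :
    ∑ x, f x = ∑ y : Fin m → Bool, (f (Fin.cons true y) + f (Fin.cons false y)) := by
  rw [← (Fin.consEquiv (fun _ : Fin (m + 1) => Bool)).sum_comp f, Fintype.sum_prod_type,
    Fintype.sum_bool, sum_add_distrib]
  rfl

theorem mgf (m : ℕ) : ∀ (F : (Fin m → Bool) → ℝ),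
    (∀ x i b, |F (Function.update x i b) - F x| ≤ 1) → ∀ l : ℝ,
    ∑ x, Real.exp (l * F x) ≤
      2 ^ m * Real.exp (l * ((∑ x, F x) / 2 ^ m) + l ^ 2 * m / 8) := by
  induction m with
  | zero =>
    intro F _ l
    simp
  | succ m ih =>
    intro F hF l
    have hG := ih (fun y => (F (Fin.cons true y) + F (Fin.cons false y)) / 2) (by
      intro y i b
      have h1 := hF (Fin.cons true y) i.succ b
      have h2 := hF (Fin.cons false y) i.succ b
      rw [← Fin.cons_update] at h1 h2
      rw [abs_le] at h1 h2 ⊢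
      constructor
      · linarith [h1.1, h2.1]
      · linarith [h1.2, h2.2]) l
    have hs : (∑ y : Fin m → Bool, (F (Fin.cons true y) + F (Fin.cons false y)) / 2) / 2 ^ m =
        (∑ x, F x) / 2 ^ (m + 1) := by
      rw [← sum_div, ← sum_cons m F, pow_succ]
      field_simp
    rw [hs] at hG
    rw [sum_cons m]
    have hstep : ∀ y : Fin m → Bool, Real.exp (l * F (Fin.cons true y)) +
        Real.exp (l * F (Fin.cons false y)) ≤ 2 * Real.exp (l ^ 2 / 8) *
          Real.exp (l * ((F (Fin.cons true y) + F (Fin.cons false y)) / 2)) := by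
      intro y
      refine two l _ _ ?_
      have h1 := hF (Fin.cons false y) 0 true
      rw [Fin.update_cons_zero] at h1
      exact h1
    calc ∑ y : Fin m → Bool, (Real.exp (l * F (Fin.cons true y)) +
          Real.exp (l * F (Fin.cons false y)))
        ≤ ∑ y : Fin m → Bool, 2 * Real.exp (l ^ 2 / 8) *
          Real.exp (l * ((F (Fin.cons true y) + F (Fin.cons false y)) / 2)) :=
          sum_le_sum fun y _ => hstep y
      _ = 2 * Real.exp (l ^ 2 / 8) * ∑ y : Fin m → Bool,
          Real.exp (l * ((F (Fin.cons true y) + F (Fin.cons false y)) / 2)) := by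
          rw [mul_sum]
      _ ≤ 2 * Real.exp (l ^ 2 / 8) * (2 ^ m * Real.exp (l * ((∑ x, F x) / 2 ^ (m + 1)) +
          l ^ 2 * m / 8)) := mul_le_mul_of_nonneg_left hG (by positivity)
      _ = 2 ^ (m + 1) * Real.exp (l * ((∑ x, F x) / 2 ^ (m + 1)) +
          l ^ 2 * ((m + 1 : ℕ) : ℝ) / 8) := by
          have e : l * ((∑ x, F x) / 2 ^ (m + 1)) + l ^ 2 * ((m + 1 : ℕ) : ℝ) / 8 =
              l ^ 2 / 8 + (l * ((∑ x, F x) / 2 ^ (m + 1)) + l ^ 2 * m / 8) := by
            push_cast; ring
          rw [e, Real.exp_add (l ^ 2 / 8)]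
          ring

theorem mgf' (E : Type) [Fintype E] [DecidableEq E] (F : (E → Bool) → ℝ)
    (hF : ∀ x i b, |F (Function.update x i b) - F x| ≤ 1) (l : ℝ) :
    ∑ x, Real.exp (l * F x) ≤ 2 ^ Fintype.card E *
      Real.exp (l * ((∑ x, F x) / 2 ^ Fintype.card E) + l ^ 2 * Fintype.card E / 8) := by
  obtain e := Fintype.equivFin E
  have key : ∀ f : (E → Bool) → ℝ, ∑ x : Fin (Fintype.card E) → Bool, f (x ∘ e) = ∑ y, f y :=
    fun f => (e.symm.arrowCongr (Equiv.refl Bool)).sum_comp f
  have h := mgf (Fintype.card E) (fun x => F (x ∘ e)) (by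
    intro x i b
    have h1 := hF (x ∘ e) (e.symm i) b
    have h2 : Function.update x i b ∘ e = Function.update (x ∘ e) (e.symm i) b :=
      Function.update_comp_equiv x e i b
    rw [h2]
    exact h1) l
  rw [key (fun y => Real.exp (l * F y)), key F] at h
  exact h

theorem prod_mgf (E : Type) [Fintype E] [DecidableEq E] (F : (E → Bool) → ℝ)
    (hF : ∀ x i b, |F (Function.update x i b) - F x| ≤ 1) (l : ℝ) :
    (∑ x, Real.exp (-(l * F x))) * (∑ x, Real.exp (l * F x)) ≤ 4 ^ Fintype.card E *
      Real.exp (l ^ 2 * Fintype.card E / 4) := by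
  have h1 := mgf' E F hF l
  have h2 := mgf' E F hF (-l)
  have e : ∀ x, Real.exp (-l * F x) = Real.exp (-(l * F x)) := fun x => by
    rw [neg_mul]
  simp only [e] at h2
  have h3 : (0 : ℝ) ≤ ∑ x, Real.exp (l * F x) := sum_nonneg fun x _ => (Real.exp_pos _).le
  refine (mul_le_mul h2 h1 h3 (by positivity)).trans (le_of_eq ?_)
  set μ := (∑ x, F x) / 2 ^ Fintype.card E with hμ
  have h4 : Real.exp (-l * μ + (-l) ^ 2 * Fintype.card E / 8) *
      Real.exp (l * μ + l ^ 2 * Fintype.card E / 8) =
      Real.exp (l ^ 2 * Fintype.card E / 4) := by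
    rw [← Real.exp_add]
    congr 1
    ring
  have h5 : (4 : ℝ) ^ Fintype.card E = 2 ^ Fintype.card E * 2 ^ Fintype.card E := by
    rw [← mul_pow]
    norm_num
  rw [h5, ← h4]
  ring

theorem dist_update {E : Type} [Fintype E] [DecidableEq E] (x : E → Bool) (i : E) (b : Bool) :
    hammingDist (Function.update x i b) x ≤ 1 := by
  unfold hammingDist
  refine (card_le_card (t := {i}) fun j hj => ?_).trans (card_singleton i).le
  rw [mem_filter] at hj
  rw [mem_singleton]
  by_contra hne
  exact hj.2 (Function.update_of_ne hne _ _)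

theorem lip {E : Type} [Fintype E] [DecidableEq E] (A : Finset (E → Bool)) (hA : A.Nonempty)
    (x : E → Bool) (i : E) (b : Bool) :
    |A.inf' hA (fun y => (hammingDist (Function.update x i b) y : ℝ)) -
      A.inf' hA (fun y => (hammingDist x y : ℝ))| ≤ 1 := by
  have hd := dist_update x i b
  have hd' : hammingDist x (Function.update x i b) ≤ 1 := by
    rw [hammingDist_comm]; exact hd
  have gen : ∀ u v : E → Bool, hammingDist u v ≤ 1 →
      A.inf' hA (fun y => (hammingDist u y : ℝ)) ≤
        A.inf' hA (fun y => (hammingDist v y : ℝ)) + 1 := by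
    intro u v huv
    obtain ⟨y, hy, hy'⟩ := exists_mem_eq_inf' hA (fun y => (hammingDist v y : ℝ))
    rw [hy']
    refine (inf'_le _ hy).trans ?_
    have h1 := hammingDist_triangle u v y
    have h2 : hammingDist u y ≤ hammingDist v y + 1 := by omega
    exact_mod_cast h2
  have g1 := gen _ _ hd
  have g2 := gen _ _ hd'
  rw [abs_le]
  constructor
  · linarith
  · linarith

end MHAM

open MHAM in
theorem t_HAM : S_HAM := by
  intro E _ _ A B D hD hAB
  rcases A.eq_empty_or_nonempty with hA | hA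
  · rw [hA, card_empty, Nat.cast_zero, zero_mul]
    positivity
  set F : (E → Bool) → ℝ := fun x => A.inf' hA (fun y => (hammingDist x y : ℝ)) with hFdef
  have hF : ∀ x i b, |F (Function.update x i b) - F x| ≤ 1 := fun x i b => lip A hA x i b
  set m : ℝ := (Fintype.card E : ℝ) with hm
  have hm0 : 0 ≤ m := Nat.cast_nonneg _
  set l : ℝ := 2 * D / m with hl
  have hl0 : 0 ≤ l := by positivity
  have h := prod_mgf E F hF l
  have hFA : ∀ x ∈ A, F x ≤ 0 := by
    intro x hx
    refine (inf'_le (fun y => (hammingDist x y : ℝ)) hx).trans ?_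
    simp
  have hFB : ∀ y ∈ B, D ≤ F y := by
    intro y hy
    refine le_inf' hA _ fun x hx => ?_
    rw [hammingDist_comm]
    exact hAB x hx y hy
  have h1 : (A.card : ℝ) ≤ ∑ x, Real.exp (-(l * F x)) := by
    calc (A.card : ℝ) = ∑ x ∈ A, (1 : ℝ) := by simp
      _ ≤ ∑ x ∈ A, Real.exp (-(l * F x)) := by
          refine sum_le_sum fun x hx => ?_
          rw [← Real.exp_zero]
          refine Real.exp_le_exp.2 ?_
          have := mul_nonpos_of_nonneg_of_nonpos hl0 (hFA x hx)
          linarith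
      _ ≤ _ := sum_le_sum_of_subset_of_nonneg (subset_univ _)
          fun _ _ _ => (Real.exp_pos _).le
  have h2 : (B.card : ℝ) * Real.exp (l * D) ≤ ∑ x, Real.exp (l * F x) := by
    calc (B.card : ℝ) * Real.exp (l * D) = ∑ x ∈ B, Real.exp (l * D) := by
          rw [sum_const, nsmul_eq_mul]
      _ ≤ ∑ x ∈ B, Real.exp (l * F x) := by
          refine sum_le_sum fun x hx => Real.exp_le_exp.2 ?_
          exact mul_le_mul_of_nonneg_left (hFB x hx) hl0
      _ ≤ _ := sum_le_sum_of_subset_of_nonneg (subset_univ _)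
          fun _ _ _ => (Real.exp_pos _).le
  have h3 : (A.card : ℝ) * (B.card * Real.exp (l * D)) ≤ 4 ^ Fintype.card E *
      Real.exp (l ^ 2 * m / 4) :=
    (mul_le_mul h1 h2 (by positivity) (sum_nonneg fun _ _ => (Real.exp_pos _).le)).trans h
  have h4 : Real.exp (l ^ 2 * m / 4) = Real.exp (-(D ^ 2 / m)) * Real.exp (l * D) := by
    rw [← Real.exp_add]
    congr 1
    rcases eq_or_lt_of_le hm0 with h0 | h0
    · rw [hl, ← h0]
      simp
    · rw [hl]
      field_simp
      ring
  rw [h4] at h3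
  have h5 := Real.exp_pos (l * D)
  have h6 : ((A.card : ℝ) * B.card) * Real.exp (l * D) ≤
      (4 ^ Fintype.card E * Real.exp (-(D ^ 2 / m))) * Real.exp (l * D) := by
    calc ((A.card : ℝ) * B.card) * Real.exp (l * D) =
        (A.card : ℝ) * (B.card * Real.exp (l * D)) := by ring
      _ ≤ _ := h3
      _ = _ := by ring
  exact le_of_mul_le_mul_right h6 h5

end Pool.Agent.SGZ
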