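import Pool.Agent.SGZ.St

/-!
# Zero-one law for slow mixing of the spin glass: module LOW (helper33)
-/

namespace Pool.Agent.SGZ

open Finset

namespace MLOW

variable {V : Type} [Fintype V] [DecidableEq V]

theorem Pf_sub (w u v : (V → Bool) → ℝ) (σ : V → Bool) :
    Pf w (fun τ => u τ - v τ) σ = Pf w u σ - Pf w v σ := by
  unfold Pf
  rw [← mul_sub, ← sum_sub_distrib]
  congr 1
  refine sum_congr rfl fun x _ => ?_
  unfold Pv
  rw [← sub_div]
  congr 1
  ring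

/-- Symmetry, iterated. -/
theorem ip_iter {w : (V → Bool) → ℝ} (hsym : ∀ f g, ip w (Pf w f) g = ip w f (Pf w g))
    (f : (V → Bool) → ℝ) (m : ℕ) : ∀ (n : ℕ) (g : (V → Bool) → ℝ),
    ip w ((Pf w)^[m + n] f) g = ip w ((Pf w)^[m] f) ((Pf w)^[n] g) := by
  intro n
  induction n with
  | zero => intro g; rfl
  | succ n ih =>
    intro g
    rw [← add_assoc, Function.iterate_succ_apply', hsym, ih, ← Function.iterate_succ_apply]

/-- The powers of the matrix. -/
theorem pow_apply {w : (V → Bool) → ℝ} (hG : ∀ f σ, ∑ τ, glauber w σ τ * f τ = Pf w f σ)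
    (k : ℕ) : ∀ (f : (V → Bool) → ℝ) (σ : V → Bool),
    ∑ τ, (glauber w ^ k) σ τ * f τ = (Pf w)^[k] f σ := by
  induction k with
  | zero =>
    intro f σ
    rw [pow_zero]
    simp [Matrix.one_apply]
  | succ k ih =>
    intro f σ
    rw [Function.iterate_succ_apply, ← ih, pow_succ]
    have h1 : ∀ τ, (glauber w ^ k * glauber w) σ τ * f τ =
        ∑ ρ, (glauber w ^ k) σ ρ * (glauber w ρ τ * f τ) := by
      intro τ
      rw [Matrix.mul_apply, sum_mul]
      refine sum_congr rfl fun ρ _ => ?_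
      ring
    rw [sum_congr rfl (fun τ _ => h1 τ), sum_comm]
    refine sum_congr rfl fun ρ _ => ?_
    rw [← mul_sum, hG]

/-- The rows of the powers have sum one. -/
theorem row {w : (V → Bool) → ℝ} (hG : ∀ f σ, ∑ τ, glauber w σ τ * f τ = Pf w f σ)
    (hc : ∀ c : ℝ, Pf w (fun _ => c) = fun _ => c) (k : ℕ) (σ : V → Bool) :
    ∑ τ, (glauber w ^ k) σ τ = 1 := by
  have h1 := pow_apply hG k (fun _ => 1) σ
  have h2 : (Pf w)^[k] (fun _ => (1 : ℝ)) = fun _ => 1 :=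
    Function.iterate_fixed (hc 1) k
  rw [h2] at h1
  simpa using h1

/-- The oscillation is at most `c`. -/
def Osc (u : (V → Bool) → ℝ) (c : ℝ) : Prop := ∀ σ σ', u σ - u σ' ≤ c

theorem osc_half {w : (V → Bool) → ℝ} (hG : ∀ f σ, ∑ τ, glauber w σ τ * f τ = Pf w f σ)
    (hc : ∀ c : ℝ, Pf w (fun _ => c) = fun _ => c) {t : ℕ} (hmix : Mixed w t)
    {u : (V → Bool) → ℝ} {c : ℝ} (hu : Osc u c) : Osc ((Pf w)^[t] u) (c / 2) := by
  intro σ σ'
  obtain ⟨M, hM⟩ := Finite.exists_max u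
  obtain ⟨m, hm⟩ := Finite.exists_min u
  set a : ℝ := (u M + u m) / 2 with ha
  have h1 : (Pf w)^[t] u σ - (Pf w)^[t] u σ' =
      ∑ τ, ((glauber w ^ t) σ τ - (glauber w ^ t) σ' τ) * (u τ - a) := by
    have e1 : ∀ τ, ((glauber w ^ t) σ τ - (glauber w ^ t) σ' τ) * (u τ - a) =
        ((glauber w ^ t) σ τ * u τ - (glauber w ^ t) σ' τ * u τ) -
        ((glauber w ^ t) σ τ * a - (glauber w ^ t) σ' τ * a) := fun τ => by ring
    rw [sum_congr rfl (fun τ _ => e1 τ), sum_sub_distrib, sum_sub_distrib, sum_sub_distrib,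
      ← sum_mul, ← sum_mul, row hG hc, row hG hc, pow_apply hG, pow_apply hG]
    ring
  rw [h1]
  have hb : ∀ τ, |u τ - a| ≤ c / 2 := by
    intro τ
    have h2 := hM τ
    have h3 := hm τ
    have h4 := hu M m
    rw [abs_le]
    constructor
    · rw [ha]; linarith
    · rw [ha]; linarith
  have hc0 : 0 ≤ c / 2 := (abs_nonneg _).trans (hb M)
  have h2 := hmix σ
  have h3 := hmix σ'
  calc ∑ τ, ((glauber w ^ t) σ τ - (glauber w ^ t) σ' τ) * (u τ - a) ≤
      ∑ τ, (|(glauber w ^ t) σ τ - gibbs w τ| + |(glauber w ^ t) σ' τ - gibbs w τ|) *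
        (c / 2) := by
        refine sum_le_sum fun τ _ => ?_
        refine (le_abs_self _).trans ?_
        rw [abs_mul]
        refine mul_le_mul ?_ (hb τ) (abs_nonneg _) (by positivity)
        have e : (glauber w ^ t) σ τ - (glauber w ^ t) σ' τ =
            ((glauber w ^ t) σ τ - gibbs w τ) - ((glauber w ^ t) σ' τ - gibbs w τ) := by ring
        rw [e]
        exact abs_sub _ _
    _ = (∑ τ, |(glauber w ^ t) σ τ - gibbs w τ| + ∑ τ, |(glauber w ^ t) σ' τ - gibbs w τ|) *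
        (c / 2) := by rw [← sum_mul, sum_add_distrib]
    _ ≤ 1 * (c / 2) := mul_le_mul_of_nonneg_right (by linarith) hc0
    _ = c / 2 := one_mul _

theorem osc_iter {w : (V → Bool) → ℝ} (hG : ∀ f σ, ∑ τ, glauber w σ τ * f τ = Pf w f σ)
    (hc : ∀ c : ℝ, Pf w (fun _ => c) = fun _ => c) {t : ℕ} (hmix : Mixed w t)
    {u : (V → Bool) → ℝ} {c : ℝ} (hu : Osc u c) (j : ℕ) :
    Osc ((Pf w)^[t * j] u) (c / 2 ^ j) := by
  induction j with
  | zero => simpa using hu
  | succ j ih =>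
    have h1 := osc_half hG hc hmix ih
    rw [← Function.iterate_add_apply] at h1
    have e1 : t * (j + 1) = t + t * j := by ring
    have e2 : c / 2 ^ (j + 1) = c / 2 ^ j / 2 := by
      rw [pow_succ, div_div]
    rw [e1, e2]
    exact h1

theorem cs {w : (V → Bool) → ℝ} (hw : ∀ σ, 0 < w σ) (x y : (V → Bool) → ℝ) :
    ip w x y ^ 2 ≤ ip w x x * ip w y y := by
  unfold ip
  refine sum_sq_le_sum_mul_sum_of_sq_eq_mul _ (fun σ _ => ?_) (fun σ _ => ?_) (fun σ _ => ?_)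
  · rw [mul_assoc]
    exact mul_nonneg (hw σ).le (mul_self_nonneg _)
  · rw [mul_assoc]
    exact mul_nonneg (hw σ).le (mul_self_nonneg _)
  · ring

theorem ip_self_nonneg {w : (V → Bool) → ℝ} (hw : ∀ σ, 0 < w σ) (x : (V → Bool) → ℝ) :
    0 ≤ ip w x x := by
  unfold ip
  refine sum_nonneg fun σ _ => ?_
  rw [mul_assoc]
  exact mul_nonneg (hw σ).le (mul_self_nonneg _)

/-- The decay of `⟨P^(t j) f, f⟩`. -/
theorem decay {w : (V → Bool) → ℝ} (hw : ∀ σ, 0 < w σ)
    (hG : ∀ f σ, ∑ τ, glauber w σ τ * f τ = Pf w f σ)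
    (hc : ∀ c : ℝ, Pf w (fun _ => c) = fun _ => c) {t : ℕ} (hmix : Mixed w t)
    {f : (V → Bool) → ℝ} {F : ℝ} (hF : ∀ σ, |f σ| ≤ F) (hmean : ∑ σ, w σ * f σ = 0) (j : ℕ) :
    ip w ((Pf w)^[t * j] f) f ≤ (∑ σ, w σ) * (2 * F * F) / 2 ^ j := by
  have hosc : Osc f (2 * F) := by
    intro σ σ'
    have h1 := (abs_le.1 (hF σ)).2
    have h2 := (abs_le.1 (hF σ')).1
    linarith
  have h1 := osc_iter hG hc hmix hosc j
  set g := (Pf w)^[t * j] f with hg
  set c0 := g (fun _ => true) with hc0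
  have h2 : ip w g f = ∑ σ, w σ * (g σ - c0) * f σ := by
    have e : ∀ σ, w σ * (g σ - c0) * f σ = w σ * g σ * f σ - c0 * (w σ * f σ) := fun σ => by ring
    rw [sum_congr rfl (fun σ _ => e σ), sum_sub_distrib, ← mul_sum, hmean, mul_zero, sub_zero]
    rfl
  have hF0 : 0 ≤ F := (abs_nonneg _).trans (hF (fun _ => true))
  rw [h2, mul_div_assoc, sum_mul]
  refine sum_le_sum fun σ _ => ?_
  have h3 : |g σ - c0| ≤ 2 * F / 2 ^ j := by
    rw [abs_le]
    constructor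
    · have := h1 (fun _ => true) σ
      linarith
    · exact h1 σ (fun _ => true)
  have h4 : (g σ - c0) * f σ ≤ 2 * F / 2 ^ j * F := by
    refine (le_abs_self _).trans ?_
    rw [abs_mul]
    exact mul_le_mul h3 (hF σ) (abs_nonneg _) (by positivity)
  have e : 2 * F / 2 ^ j * F = 2 * F * F / 2 ^ j := by ring
  rw [mul_assoc, ← e]
  exact mul_le_mul_of_nonneg_left h4 (hw σ).le

/-- `⟨P^t f, f⟩ ≤ ⟨f, f⟩ / 2`. -/
theorem half {w : (V → Bool) → ℝ} (hw : ∀ σ, 0 < w σ)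
    (hG : ∀ f σ, ∑ τ, glauber w σ τ * f τ = Pf w f σ)
    (hsym : ∀ f g, ip w (Pf w f) g = ip w f (Pf w g))
    (hc : ∀ c : ℝ, Pf w (fun _ => c) = fun _ => c) {t : ℕ} (hmix : Mixed w t)
    {f : (V → Bool) → ℝ} (hmean : ∑ σ, w σ * f σ = 0) (hpos : 0 < ip w f f) :
    ip w ((Pf w)^[t] f) f ≤ ip w f f / 2 := by
  by_contra hcon
  rw [not_le] at hcon
  obtain ⟨M, hM⟩ := Finite.exists_max (fun σ => |f σ|)
  set F := |f M| with hFdef
  set a0 := ip w f f with ha0
  set r := ip w ((Pf w)^[t] f) f / a0 with hr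
  have hr1 : 1 < 2 * r := by
    rw [hr, ← mul_div_assoc, lt_div_iff₀ hpos]
    linarith
  have hind : ∀ i : ℕ, r ^ (2 ^ i) * a0 ≤ ip w ((Pf w)^[t * 2 ^ i] f) f := by
    intro i
    induction i with
    | zero =>
      have e : r ^ (2 ^ 0) * a0 = ip w ((Pf w)^[t] f) f := by
        rw [pow_zero, pow_one, hr, div_mul_cancel₀ _ hpos.ne']
      rw [e, pow_zero, mul_one]
    | succ i ih =>
      have h1 := cs hw ((Pf w)^[t * 2 ^ i] f) f
      rw [← ip_iter hsym f (t * 2 ^ i) (t * 2 ^ i) f] at h1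
      have e1 : t * 2 ^ i + t * 2 ^ i = t * 2 ^ (i + 1) := by rw [pow_succ]; ring
      rw [e1] at h1
      have h2 : 0 ≤ r ^ (2 ^ i) * a0 := by
        have : 0 ≤ r := by linarith
        positivity
      have h3 : (r ^ (2 ^ i) * a0) ^ 2 ≤ ip w ((Pf w)^[t * 2 ^ i] f) f ^ 2 :=
        pow_le_pow_left₀ h2 ih 2
      have h4 : (r ^ (2 ^ (i + 1)) * a0) * a0 = (r ^ (2 ^ i) * a0) ^ 2 := by
        rw [pow_succ 2 i, pow_mul]
        ring
      have h5 : (r ^ (2 ^ (i + 1)) * a0) * a0 ≤ ip w ((Pf w)^[t * 2 ^ (i + 1)] f) f * a0 := by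
        rw [h4]
        exact h3.trans h1
      exact le_of_mul_le_mul_right h5 hpos
  set B := (∑ σ, w σ) * (2 * F * F) with hB
  obtain ⟨n, hn⟩ := pow_unbounded_of_one_lt (B / a0) hr1
  have h1 := hind n
  have h2 := decay hw hG hc hmix (f := f) (F := F) hM hmean (2 ^ n)
  have h3 : (2 * r) ^ (2 ^ n) * a0 ≤ B := by
    have e : (2 * r) ^ (2 ^ n) * a0 = 2 ^ (2 ^ n) * (r ^ (2 ^ n) * a0) := by
      rw [mul_pow]; ring
    rw [e]
    calc (2 : ℝ) ^ (2 ^ n) * (r ^ (2 ^ n) * a0) ≤ 2 ^ (2 ^ n) * (B / 2 ^ (2 ^ n)) :=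
          mul_le_mul_of_nonneg_left (h1.trans h2) (by positivity)
      _ = B := by field_simp
  have h4 : (2 * r) ^ n ≤ (2 * r) ^ (2 ^ n) :=
    pow_le_pow_right₀ hr1.le (Nat.lt_two_pow_self).le
  rw [div_lt_iff₀ hpos] at hn
  have h5 := mul_le_mul_of_nonneg_right h4 hpos.le
  linarith

/-- The differences do not increase. -/
theorem conv {w : (V → Bool) → ℝ} (hw : ∀ σ, 0 < w σ)
    (hsym : ∀ f g, ip w (Pf w f) g = ip w f (Pf w g))
    (hpsd : ∀ f, ip w (Pf w f) (Pf w f) ≤ ip w (Pf w f) f) (f : (V → Bool) → ℝ) (k : ℕ) :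
    ip w ((Pf w)^[k + 1] f) f - ip w ((Pf w)^[k + 2] f) f ≤
      ip w ((Pf w)^[k] f) f - ip w ((Pf w)^[k + 1] f) f := by
  rcases Nat.even_or_odd' k with ⟨m, rfl | rfl⟩
  · set u := (Pf w)^[m] f with hu
    have e0 : ip w ((Pf w)^[2 * m] f) f = ip w u u := by
      rw [two_mul, ip_iter hsym]
    have e1 : ip w ((Pf w)^[2 * m + 1] f) f = ip w (Pf w u) u := by
      rw [show 2 * m + 1 = (m + 1) + m by ring, ip_iter hsym, Function.iterate_succ_apply']
    have e2 : ip w ((Pf w)^[2 * m + 2] f) f = ip w (Pf w u) (Pf w u) := by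
      rw [show 2 * m + 2 = (m + 1) + (m + 1) by ring, ip_iter hsym, Function.iterate_succ_apply']
    rw [e0, e1, e2]
    have h1 := ip_self_nonneg hw (fun σ => u σ - Pf w u σ)
    have h2 : ip w (fun σ => u σ - Pf w u σ) (fun σ => u σ - Pf w u σ) =
        ip w u u - 2 * ip w (Pf w u) u + ip w (Pf w u) (Pf w u) := by
      unfold ip
      rw [mul_sum, ← sum_sub_distrib, ← sum_add_distrib]
      refine sum_congr rfl fun σ _ => ?_
      ring
    linarith
  · set u := (Pf w)^[m] f with hu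
    have e1 : ip w ((Pf w)^[2 * m + 1] f) f = ip w (Pf w u) u := by
      rw [show 2 * m + 1 = (m + 1) + m by ring, ip_iter hsym, Function.iterate_succ_apply']
    have e2 : ip w ((Pf w)^[2 * m + 1 + 1] f) f = ip w (Pf w u) (Pf w u) := by
      rw [show 2 * m + 1 + 1 = (m + 1) + (m + 1) by ring, ip_iter hsym,
        Function.iterate_succ_apply']
    have e3 : ip w ((Pf w)^[2 * m + 1 + 2] f) f = ip w (Pf w (Pf w u)) (Pf w u) := by
      rw [show 2 * m + 1 + 2 = (m + 1 + 1) + (m + 1) by ring, ip_iter hsym,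
        Function.iterate_succ_apply', Function.iterate_succ_apply']
    rw [e1, e2, e3]
    set v : (V → Bool) → ℝ := fun σ => u σ - Pf w u σ with hv
    have h0 : Pf w v = fun σ => Pf w u σ - Pf w (Pf w u) σ := by
      funext σ
      exact Pf_sub w u (Pf w u) σ
    have h1 : 0 ≤ ip w (Pf w v) v := (ip_self_nonneg hw (Pf w v)).trans (hpsd v)
    have h2 : ip w (Pf w v) v = ip w (Pf w u) u - ip w (Pf w u) (Pf w u) -
        ip w (Pf w (Pf w u)) u + ip w (Pf w (Pf w u)) (Pf w u) := by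
      rw [h0]
      unfold ip
      rw [← sum_sub_distrib, ← sum_sub_distrib, ← sum_add_distrib]
      refine sum_congr rfl fun σ _ => ?_
      rw [hv]
      ring
    have h3 : ip w (Pf w (Pf w u)) u = ip w (Pf w u) (Pf w u) := hsym _ _
    linarith

theorem tele {a : ℕ → ℝ} (h : ∀ k, a (k + 1) - a (k + 2) ≤ a k - a (k + 1)) (t : ℕ) :
    a 0 - a t ≤ t * (a 0 - a 1) := by
  have h1 : ∀ k, a k - a (k + 1) ≤ a 0 - a 1 := by
    intro k
    induction k with
    | zero => exact le_refl _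
    | succ k ih => exact (h k).trans ih
  induction t with
  | zero => simp
  | succ t ih =>
    have h2 := h1 t
    push_cast
    linarith

/-- The gap for functions of mean zero. -/
theorem core {w : (V → Bool) → ℝ} (hw : ∀ σ, 0 < w σ)
    (hG : ∀ f σ, ∑ τ, glauber w σ τ * f τ = Pf w f σ)
    (hsym : ∀ f g, ip w (Pf w f) g = ip w f (Pf w g))
    (hdir : ∀ f, ip w f f - ip w (Pf w f) f = dir w f)
    (hpsd : ∀ f, ip w (Pf w f) (Pf w f) ≤ ip w (Pf w f) f)
    (hdir0 : ∀ f, 0 ≤ dir w f)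
    (hc : ∀ c : ℝ, Pf w (fun _ => c) = fun _ => c) {t : ℕ} (ht : 1 ≤ t) (hmix : Mixed w t)
    (f : (V → Bool) → ℝ) (hmean : ∑ σ, w σ * f σ = 0) :
    1 / (2 * (t : ℝ)) * ip w f f ≤ dir w f := by
  have ht0 : (0 : ℝ) < t := by exact_mod_cast ht
  rcases (ip_self_nonneg hw f).eq_or_lt with h0 | h0
  · rw [← h0, mul_zero]
    exact hdir0 f
  · have h1 := half hw hG hsym hc hmix hmean h0
    have h2 := tele (a := fun k => ip w ((Pf w)^[k] f) f) (conv hw hsym hpsd f) t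
    have h3 : ip w f f - ip w ((Pf w)^[t] f) f ≤ t * dir w f := by
      rw [← hdir f]
      exact h2
    rw [div_mul_eq_mul_div, one_mul, div_le_iff₀ (by positivity)]
    linarith

end MLOW

open MLOW in
theorem t_LOW (hPRJ : S_PRJ) : S_LOW := by
  intro V _ _ _ w t hw ht hmix f
  obtain ⟨hG, hsym, hdir, hpsd, hdir0, hc, -⟩ := hPRJ V w hw
  have hW : 0 < ∑ σ, w σ := sum_pos (fun σ _ => hw σ) univ_nonempty
  set c := (∑ σ, w σ * f σ) / ∑ σ, w σ with hcdef
  refine ⟨c, ?_⟩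
  have hmean : ∑ σ, w σ * (f σ - c) = 0 := by
    have e : ∀ σ, w σ * (f σ - c) = w σ * f σ - w σ * c := fun σ => by ring
    rw [sum_congr rfl (fun σ _ => e σ), sum_sub_distrib, ← sum_mul, hcdef,
      mul_div_cancel₀ _ hW.ne', sub_self]
  have h1 := core hw hG hsym hdir hpsd hdir0 hc ht hmix (fun σ => f σ - c) hmean
  have h2 : dir w (fun σ => f σ - c) = dir w f := by
    unfold dir
    congr 1
    refine sum_congr rfl fun v _ => sum_congr rfl fun σ _ => ?_
    congr 1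
    ring
  have h3 : ip w (fun σ => f σ - c) (fun σ => f σ - c) = ∑ σ, w σ * (f σ - c) ^ 2 := by
    unfold ip
    refine sum_congr rfl fun σ _ => ?_
    ring
  rw [h2, h3] at h1
  exact h1

end Pool.Agent.SGZ
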