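import Pool.Agent.SGZ.St

/-!
# Project SGZ, module PRJ (helper52): facts on the heat bath operator
-/

set_option autoImplicit false

namespace Pool.Agent.SGZ

open Finset

namespace MPRJ

section

variable {V : Type} [Fintype V] [DecidableEq V]

theorem up_up (σ : V → Bool) (v : V) : up (up σ v) v = up σ v := by
  unfold up
  exact Function.update_idem _ _ _

theorem dn_up (σ : V → Bool) (v : V) : dn (up σ v) v = dn σ v := by
  unfold up dn
  exact Function.update_idem _ _ _

theorem up_dn (σ : V → Bool) (v : V) : up (dn σ v) v = up σ v := by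
  unfold up dn
  exact Function.update_idem _ _ _

theorem dn_dn (σ : V → Bool) (v : V) : dn (dn σ v) v = dn σ v := by
  unfold dn
  exact Function.update_idem _ _ _

theorem Pv_up (w : (V → Bool) → ℝ) (v : V) (f : (V → Bool) → ℝ) (σ : V → Bool) :
    Pv w v f (up σ v) = Pv w v f σ := by
  unfold Pv
  rw [up_up, dn_up]

theorem Pv_dn (w : (V → Bool) → ℝ) (v : V) (f : (V → Bool) → ℝ) (σ : V → Bool) :
    Pv w v f (dn σ v) = Pv w v f σ := by
  unfold Pv
  rw [up_dn, dn_dn]

/-- The flip at `v`. -/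
def fl (v : V) (σ : V → Bool) : V → Bool := Function.update σ v (!σ v)

theorem fl_fl (v : V) (σ : V → Bool) : fl v (fl v σ) = σ := by
  unfold fl
  rw [Function.update_self, Function.update_idem, Bool.not_not, Function.update_eq_self]

theorem pair (v : V) (F : (V → Bool) → ℝ) :
    ∑ σ, F σ = ∑ σ, 1 / 2 * (F (up σ v) + F (dn σ v)) := by
  have h1 : ∑ σ, F (fl v σ) = ∑ σ, F σ :=
    Equiv.sum_comp (Function.Involutive.toPerm (fl v) (fl_fl v)) F
  have h2 : ∀ σ, F σ + F (fl v σ) = F (up σ v) + F (dn σ v) := by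
    intro σ
    unfold fl up dn
    rcases h : σ v with _ | _
    · have h3 : Function.update σ v false = σ := by
        rw [← h]
        exact Function.update_eq_self v σ
      rw [h3, Bool.not_false, add_comm]
    · have h3 : Function.update σ v true = σ := by
        rw [← h]
        exact Function.update_eq_self v σ
      rw [h3, Bool.not_true]
  rw [← Finset.mul_sum, ← Finset.sum_congr rfl fun σ _ => h2 σ, Finset.sum_add_distrib, h1]
  ring

theorem ipv (w : (V → Bool) → ℝ) (v : V) (f g : (V → Bool) → ℝ) :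
    ∑ σ, w σ * Pv w v f σ * g σ = ∑ σ, 1 / 2 * (Pv w v f σ *
      (w (up σ v) * g (up σ v) + w (dn σ v) * g (dn σ v))) := by
  rw [pair v]
  refine Finset.sum_congr rfl fun σ _ => ?_
  rw [Pv_up, Pv_dn]
  ring

theorem ipv_symm (w : (V → Bool) → ℝ) (v : V) (f g : (V → Bool) → ℝ) :
    ∑ σ, w σ * Pv w v f σ * g σ = ∑ σ, w σ * f σ * Pv w v g σ := by
  have h1 : ∑ σ, w σ * f σ * Pv w v g σ = ∑ σ, w σ * Pv w v g σ * f σ :=
    Finset.sum_congr rfl fun σ _ => by ring
  rw [h1, ipv, ipv]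
  refine Finset.sum_congr rfl fun σ _ => ?_
  unfold Pv
  ring

theorem Pv_mul {w : (V → Bool) → ℝ} (hw : ∀ σ, 0 < w σ) (v : V) (f : (V → Bool) → ℝ)
    (σ : V → Bool) : (w (up σ v) + w (dn σ v)) * Pv w v f σ =
      w (up σ v) * f (up σ v) + w (dn σ v) * f (dn σ v) := by
  unfold Pv
  have h : w (up σ v) + w (dn σ v) ≠ 0 := (add_pos (hw _) (hw _)).ne'
  exact mul_div_cancel₀ _ h

theorem ipv_sq {w : (V → Bool) → ℝ} (hw : ∀ σ, 0 < w σ) (v : V) (f : (V → Bool) → ℝ) :
    ∑ σ, w σ * Pv w v f σ * Pv w v f σ = ∑ σ, w σ * Pv w v f σ * f σ := by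
  rw [ipv, ipv]
  refine Finset.sum_congr rfl fun σ _ => ?_
  rw [Pv_up, Pv_dn, ← add_mul, Pv_mul hw]

theorem ip_Pf (w : (V → Bool) → ℝ) (f g : (V → Bool) → ℝ) :
    ip w (Pf w f) g = (Fintype.card V : ℝ)⁻¹ * ∑ v, ∑ σ, w σ * Pv w v f σ * g σ := by
  unfold ip Pf
  rw [Finset.sum_comm, Finset.mul_sum]
  refine Finset.sum_congr rfl fun σ _ => ?_
  rw [← Finset.sum_mul, ← Finset.mul_sum]
  ring

theorem ip_Pf' (w : (V → Bool) → ℝ) (f g : (V → Bool) → ℝ) :
    ip w f (Pf w g) = (Fintype.card V : ℝ)⁻¹ * ∑ v, ∑ σ, w σ * f σ * Pv w v g σ := by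
  unfold ip Pf
  rw [Finset.sum_comm, Finset.mul_sum]
  refine Finset.sum_congr rfl fun σ _ => ?_
  rw [← Finset.mul_sum]
  ring

theorem filt (σ : V → Bool) (v : V) :
    (univ : Finset (V → Bool)).filter (fun τ => ∀ u, u ≠ v → τ u = σ u) =
      {up σ v, dn σ v} := by
  ext τ
  rw [Finset.mem_filter, Finset.mem_insert, Finset.mem_singleton]
  constructor
  · rintro ⟨-, h⟩
    have h1 : ∀ b, τ v = b → τ = Function.update σ v b := by
      intro b hb
      funext u
      by_cases hu : u = v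
      · rw [hu, hb, Function.update_self]
      · rw [Function.update_of_ne hu, h u hu]
    rcases hv : τ v with _ | _
    · exact Or.inr (h1 false hv)
    · exact Or.inl (h1 true hv)
  · rintro (rfl | rfl)
    · exact ⟨Finset.mem_univ _, fun u hu => Function.update_of_ne hu _ _⟩
    · exact ⟨Finset.mem_univ _, fun u hu => Function.update_of_ne hu _ _⟩

theorem up_ne_dn (σ : V → Bool) (v : V) : up σ v ≠ dn σ v := by
  intro h
  have h1 := congrFun h v
  unfold up dn at h1
  rw [Function.update_self, Function.update_self] at h1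
  exact Bool.noConfusion h1

theorem glauber_row (w : (V → Bool) → ℝ) (f : (V → Bool) → ℝ) (σ : V → Bool) :
    ∑ τ, glauber w σ τ * f τ = Pf w f σ := by
  unfold glauber Pf
  have h1 : ∀ v : V, ∑ τ : V → Bool, (if (∀ u, u ≠ v → τ u = σ u) then
      w τ / (w (Function.update σ v true) + w (Function.update σ v false)) else 0) * f τ =
      Pv w v f σ := by
    intro v
    have h2 : ∀ τ : V → Bool, (if (∀ u, u ≠ v → τ u = σ u) then
        w τ / (w (Function.update σ v true) + w (Function.update σ v false)) else 0) * f τ =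
        if (∀ u, u ≠ v → τ u = σ u) then w τ * f τ / (w (up σ v) + w (dn σ v)) else 0 := by
      intro τ
      by_cases h : ∀ u, u ≠ v → τ u = σ u
      · rw [if_pos h, if_pos h]
        exact div_mul_eq_mul_div _ _ _
      · rw [if_neg h, if_neg h, zero_mul]
    rw [Finset.sum_congr rfl fun τ _ => h2 τ, ← Finset.sum_filter, filt,
      Finset.sum_pair (up_ne_dn σ v), ← add_div]
    rfl
  rw [← Finset.sum_congr rfl fun v _ => h1 v, Finset.sum_comm, Finset.mul_sum]
  refine Finset.sum_congr rfl fun τ _ => ?_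
  rw [← Finset.sum_mul]
  ring

end

end MPRJ

open MPRJ in
theorem t_PRJ : S_PRJ := by
  intro V _ _ _ w hw
  have hN : (0 : ℝ) < (Fintype.card V : ℝ) := by
    exact_mod_cast Fintype.card_pos
  have hs : ∀ (σ : V → Bool) (v : V), 0 < w (up σ v) + w (dn σ v) := fun σ v =>
    add_pos (hw _) (hw _)
  refine ⟨glauber_row w, ?_, ?_, ?_, ?_, ?_, ?_⟩
  · intro f g
    rw [ip_Pf, ip_Pf']
    congr 1
    exact Finset.sum_congr rfl fun v _ => ipv_symm w v f g
  · intro f
    rw [ip_Pf]
    unfold dir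
    have h1 : ip w f f = (Fintype.card V : ℝ)⁻¹ * ∑ _v : V, ip w f f := by
      rw [Finset.sum_const, Finset.card_univ, nsmul_eq_mul, ← mul_assoc,
        inv_mul_cancel₀ hN.ne', one_mul]
    rw [h1, ← mul_sub, ← Finset.sum_sub_distrib]
    congr 1
    refine Finset.sum_congr rfl fun v _ => ?_
    unfold ip
    rw [pair v (fun σ => w σ * f σ * f σ), ipv, ← Finset.sum_sub_distrib]
    refine Finset.sum_congr rfl fun σ _ => ?_
    unfold Pv
    have h2 := (hs σ v).ne'
    field_simp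
    ring
  · intro f
    rw [ip_Pf w f f, ← Finset.sum_congr rfl fun v _ => ipv_sq hw v f, Finset.sum_comm,
      Finset.mul_sum]
    unfold ip
    refine Finset.sum_le_sum fun σ _ => ?_
    unfold Pf
    have h1 := sq_sum_le_card_mul_sum_sq (s := (univ : Finset V)) (f := fun v => Pv w v f σ)
    rw [Finset.card_univ] at h1
    have h2 : ∑ v, w σ * Pv w v f σ * Pv w v f σ = w σ * ∑ v, Pv w v f σ ^ 2 := by
      rw [Finset.mul_sum]
      exact Finset.sum_congr rfl fun v _ => by ring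
    rw [h2]
    have h3 : ((Fintype.card V : ℝ)⁻¹) ^ 2 * (∑ v, Pv w v f σ) ^ 2 ≤
        (Fintype.card V : ℝ)⁻¹ * ∑ v, Pv w v f σ ^ 2 := by
      calc ((Fintype.card V : ℝ)⁻¹) ^ 2 * (∑ v, Pv w v f σ) ^ 2
          ≤ ((Fintype.card V : ℝ)⁻¹) ^ 2 * ((Fintype.card V : ℝ) * ∑ v, Pv w v f σ ^ 2) :=
            mul_le_mul_of_nonneg_left h1 (by positivity)
        _ = (Fintype.card V : ℝ)⁻¹ * ∑ v, Pv w v f σ ^ 2 := by
            field_simp
    have h4 := mul_le_mul_of_nonneg_left h3 (hw σ).le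
    calc w σ * ((Fintype.card V : ℝ)⁻¹ * ∑ v, Pv w v f σ) *
          ((Fintype.card V : ℝ)⁻¹ * ∑ v, Pv w v f σ)
        = w σ * (((Fintype.card V : ℝ)⁻¹) ^ 2 * (∑ v, Pv w v f σ) ^ 2) := by ring
      _ ≤ w σ * ((Fintype.card V : ℝ)⁻¹ * ∑ v, Pv w v f σ ^ 2) := h4
      _ = (Fintype.card V : ℝ)⁻¹ * (w σ * ∑ v, Pv w v f σ ^ 2) := by ring
  · intro f
    unfold dir
    refine mul_nonneg (inv_nonneg.2 hN.le) (Finset.sum_nonneg fun v _ =>
      Finset.sum_nonneg fun σ _ => ?_)
    refine mul_nonneg (mul_nonneg (by norm_num) (div_nonneg (mul_nonneg (hw _).le (hw _).le)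
      (hs σ v).le)) (sq_nonneg _)
  · intro c
    funext σ
    unfold Pf
    have h1 : ∀ v : V, Pv w v (fun _ => c) σ = c := by
      intro v
      unfold Pv
      rw [← add_mul, mul_comm, mul_div_assoc, div_self (hs σ v).ne', mul_one]
    rw [Finset.sum_congr rfl fun v _ => h1 v, Finset.sum_const, Finset.card_univ, nsmul_eq_mul,
      ← mul_assoc, inv_mul_cancel₀ hN.ne', one_mul]
  · intro f g hfg σ
    unfold Pf
    refine mul_le_mul_of_nonneg_left (Finset.sum_le_sum fun v _ => ?_) (inv_nonneg.2 hN.le)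
    unfold Pv
    refine div_le_div_of_nonneg_right ?_ (hs σ v).le
    exact add_le_add (mul_le_mul_of_nonneg_left (hfg _) (hw _).le)
      (mul_le_mul_of_nonneg_left (hfg _) (hw _).le)

end Pool.Agent.SGZ
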