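import Pool.Agent.SGZ.St

/-! Zero-one law for slow mixing of the spin glass, module TOR: the torus. -/

set_option autoImplicit false

namespace Pool.Agent.SGZ

open Finset Filter Topology

namespace MTOR

theorem card_TV (d n : ℕ) : Fintype.card (TV d n) = (n + 3) ^ d := by
  simp [TV, ZMod.card]

theorem card_TE (d n : ℕ) : Fintype.card (TE d n) = (n + 3) ^ d * d := by
  simp [TE, TV, ZMod.card]

theorem prob_nonneg {E : Type*} [Fintype E] (A : Set (E → Bool)) : 0 ≤ prob A := by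
  unfold prob
  positivity

theorem prob_compl {E : Type*} [Fintype E] (A : Set (E → Bool)) : prob Aᶜ = 1 - prob A := by
  classical
  unfold prob
  have h := Set.ncard_add_ncard_compl A
  rw [Nat.card_eq_fintype_card, Fintype.card_fun, Fintype.card_bool] at h
  have h2 : (0 : ℝ) < 2 ^ Fintype.card E := by positivity
  rw [eq_sub_iff_add_eq, ← add_div, div_eq_one_iff_eq h2.ne', add_comm]
  exact_mod_cast h

theorem part1 (hGEN : S_GEN) (d n : ℕ) (β S T : ℝ) (hd : 1 ≤ d) (hβ : 0 < β) (hS : 1 ≤ S)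
    (hT : 3 * ((2 * β * d + 3) * (n + 3 : ℝ) ^ d) * S ≤ T) :
    (1 - probMixGe d n β S) * probMixGe d n β T ≤
      Real.exp (-(Real.log (T / (3 * ((2 * β * d + 3) * (n + 3 : ℝ) ^ d) * S)) ^ 2 /
        (16 * β ^ 2 * d * (n + 3 : ℝ) ^ d))) := by
  have hdr : (1 : ℝ) ≤ d := by exact_mod_cast hd
  have hs1 : (1 : ℝ) ≤ (n : ℝ) + 3 := by linarith [(Nat.cast_nonneg n : (0 : ℝ) ≤ n)]
  have hN1 : (1 : ℝ) ≤ ((n : ℝ) + 3) ^ d := one_le_pow₀ hs1
  set N : ℝ := ((n : ℝ) + 3) ^ d with hN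
  have hcV : ((Fintype.card (TV d n) : ℕ) : ℝ) = N := by
    rw [card_TV]
    push_cast
    rfl
  have hcE : ((Fintype.card (TE d n) : ℕ) : ℝ) = N * d := by
    rw [card_TE]
    push_cast
    rfl
  set K : ℝ := 2 * β * Fintype.card (TE d n) + Fintype.card (TV d n) + 2 with hK
  have hKle : K ≤ (2 * β * d + 3) * N := by
    rw [hK, hcE, hcV]
    nlinarith
  have hKpos : 0 < K := by
    rw [hK, hcE, hcV]
    positivity
  have hSpos : 0 < S := by linarith
  have h3 : 3 * K * S ≤ 3 * ((2 * β * d + 3) * N) * S := by gcongr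
  have h4 : 3 * K * S ≤ T := h3.trans hT
  have hmain := hGEN (TV d n) (TE d n) (src d n) (tgt d n) β K S T hβ hS hK h4
  have hcompl : prob {J : TE d n → Bool | ¬ MixGe (weight (src d n) (tgt d n) β J) S} =
      1 - probMixGe d n β S := by
    unfold probMixGe
    rw [← prob_compl]
    rfl
  rw [hcompl] at hmain
  refine le_trans hmain (Real.exp_le_exp.2 (neg_le_neg ?_))
  rw [hcE]
  have hden : 16 * β ^ 2 * (N * d) = 16 * β ^ 2 * d * N := by ring
  rw [hden]
  have hTpos : 0 < T := lt_of_lt_of_le (by positivity) h4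
  have hK' : 0 < 3 * ((2 * β * d + 3) * N) * S := by positivity
  have h5 : (1 : ℝ) ≤ T / (3 * ((2 * β * d + 3) * N) * S) := by
    rw [le_div_iff₀ hK']
    linarith
  have h6 : T / (3 * ((2 * β * d + 3) * N) * S) ≤ T / (3 * K * S) := by
    gcongr
  have h7 : Real.log (T / (3 * ((2 * β * d + 3) * N) * S)) ≤ Real.log (T / (3 * K * S)) :=
    Real.log_le_log (by linarith) h6
  have h8 : 0 ≤ Real.log (T / (3 * ((2 * β * d + 3) * N) * S)) := Real.log_nonneg h5
  gcongr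

theorem tendsto_side : Tendsto (fun n : ℕ => ((n : ℝ) + 3)) atTop atTop :=
  tendsto_atTop_add_const_right _ _ tendsto_natCast_atTop_atTop

theorem part2 (hGEN : S_GEN) (d : ℕ) (β ε δ : ℝ) (hd : 1 ≤ d) (hβ : 0 < β) (hε : 0 < ε)
    (hδ : δ < 2 * ε - d) : ∃ n0 : ℕ, ∀ n ≥ n0,
    ∀ x : ℝ, 0 ≤ x → probMixGe d n β (Real.exp (x + (n + 3 : ℝ) ^ ε)) < Real.exp (-(n + 3 : ℝ) ^ δ) ∨
      1 - Real.exp (-(n + 3 : ℝ) ^ δ) ≤ probMixGe d n β (Real.exp x) := by
  have hdr : (1 : ℝ) ≤ d := by exact_mod_cast hd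
  have hdpos : (0 : ℝ) < d := by linarith
  set C : ℝ := 3 * (2 * β * d + 3) with hC
  have hCpos : 0 < C := by positivity
  -- the logarithm of `3 K`
  have e1 : ∀ᶠ n : ℕ in atTop, Real.log C ≤ ((n : ℝ) + 3) ^ ε / 4 := by
    have h1 : Tendsto (fun n : ℕ => ((n : ℝ) + 3) ^ ε) atTop atTop :=
      (tendsto_rpow_atTop hε).comp tendsto_side
    filter_upwards [h1.eventually_ge_atTop (4 * Real.log C)] with n hn
    linarith
  have e2 : ∀ᶠ n : ℕ in atTop, (d : ℝ) * Real.log ((n : ℝ) + 3) ≤ ((n : ℝ) + 3) ^ ε / 4 := by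
    have h1 := (isLittleO_log_rpow_atTop hε).def (show (0 : ℝ) < 1 / (4 * d) by positivity)
    have h2 := tendsto_side.eventually h1
    filter_upwards [h2] with n hn
    have hp : (1 : ℝ) ≤ (n : ℝ) + 3 := by linarith [(Nat.cast_nonneg n : (0 : ℝ) ≤ n)]
    rw [Real.norm_of_nonneg (Real.log_nonneg hp),
      Real.norm_of_nonneg (Real.rpow_nonneg (by linarith) _)] at hn
    calc (d : ℝ) * Real.log ((n : ℝ) + 3) ≤ d * (1 / (4 * d) * ((n : ℝ) + 3) ^ ε) := by gcongr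
      _ = ((n : ℝ) + 3) ^ ε / 4 := by
          field_simp
  have e3 : ∀ᶠ n : ℕ in atTop, 128 * β ^ 2 * d ≤ ((n : ℝ) + 3) ^ (2 * ε - d - δ) := by
    have h1 : Tendsto (fun n : ℕ => ((n : ℝ) + 3) ^ (2 * ε - d - δ)) atTop atTop :=
      (tendsto_rpow_atTop (by linarith)).comp tendsto_side
    exact h1.eventually_ge_atTop _
  obtain ⟨n0, hn0⟩ := eventually_atTop.1 (e1.and (e2.and e3))
  refine ⟨n0, fun n hn x hx => ?_⟩
  obtain ⟨h1, h2, h3⟩ := hn0 n hn
  have hsp : (0 : ℝ) < (n : ℝ) + 3 := by positivity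
  set s : ℝ := (n : ℝ) + 3 with hs
  have hsε : 0 < s ^ ε := Real.rpow_pos_of_pos hsp ε
  have hsδ : 0 < s ^ δ := Real.rpow_pos_of_pos hsp δ
  have hN : 0 < s ^ d := by positivity
  have hlogK : Real.log (3 * ((2 * β * d + 3) * s ^ d)) ≤ s ^ ε / 2 := by
    have h4 : 3 * ((2 * β * d + 3) * s ^ d) = C * s ^ d := by rw [hC]; ring
    rw [h4, Real.log_mul hCpos.ne' hN.ne', Real.log_pow]
    linarith
  have hKpos : 0 < 3 * ((2 * β * d + 3) * s ^ d) := by positivity
  have hexpx : 0 < Real.exp x := Real.exp_pos x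
  have hT : 3 * ((2 * β * d + 3) * s ^ d) * Real.exp x ≤ Real.exp (x + s ^ ε) := by
    rw [Real.exp_add, mul_comm]
    gcongr
    rw [← Real.log_le_iff_le_exp hKpos]
    linarith
  have hbound := part1 hGEN d n β (Real.exp x) (Real.exp (x + s ^ ε)) hd hβ (Real.one_le_exp hx) hT
  rw [← hs] at hbound
  have hlog : Real.log (Real.exp (x + s ^ ε) / (3 * ((2 * β * d + 3) * s ^ d) * Real.exp x)) =
      s ^ ε - Real.log (3 * ((2 * β * d + 3) * s ^ d)) := by
    rw [Real.log_div (Real.exp_pos _).ne' (by positivity), Real.log_exp,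
      Real.log_mul hKpos.ne' hexpx.ne', Real.log_exp]
    ring
  rw [hlog] at hbound
  have hexp : 2 * s ^ δ ≤ (s ^ ε - Real.log (3 * ((2 * β * d + 3) * s ^ d))) ^ 2 /
      (16 * β ^ 2 * d * s ^ d) := by
    rw [le_div_iff₀ (by positivity)]
    have h5 : s ^ ε / 2 ≤ s ^ ε - Real.log (3 * ((2 * β * d + 3) * s ^ d)) := by linarith
    have h6 : (s ^ ε / 2) ^ 2 ≤ (s ^ ε - Real.log (3 * ((2 * β * d + 3) * s ^ d))) ^ 2 := by
      gcongr
    refine le_trans ?_ h6
    have h7 : (s ^ ε) ^ 2 = s ^ (2 * ε - d - δ) * (s ^ δ * s ^ d) := by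
      rw [← Real.rpow_natCast s d, ← Real.rpow_add hsp, ← Real.rpow_add hsp, ← Real.rpow_natCast,
        ← Real.rpow_mul hsp.le]
      congr 1
      push_cast
      ring
    have h8 : 128 * β ^ 2 * d * (s ^ δ * s ^ d) ≤ (s ^ ε) ^ 2 := by
      rw [h7]
      gcongr
    nlinarith
  have hmain : (1 - probMixGe d n β (Real.exp x)) * probMixGe d n β (Real.exp (x + s ^ ε)) ≤
      Real.exp (-s ^ δ) * Real.exp (-s ^ δ) := by
    refine hbound.trans ?_
    rw [← Real.exp_add]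
    refine Real.exp_le_exp.2 ?_
    linarith
  rcases lt_or_ge (probMixGe d n β (Real.exp (x + s ^ ε))) (Real.exp (-s ^ δ)) with h9 | h9
  · exact Or.inl h9
  · right
    have hpos : 0 ≤ 1 - probMixGe d n β (Real.exp x) := by
      unfold probMixGe
      rw [← prob_compl]
      exact prob_nonneg _
    have h10 : (1 - probMixGe d n β (Real.exp x)) * Real.exp (-s ^ δ) ≤
        Real.exp (-s ^ δ) * Real.exp (-s ^ δ) :=
      (mul_le_mul_of_nonneg_left h9 hpos).trans hmain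
    have h11 := le_of_mul_le_mul_right h10 (Real.exp_pos _)
    linarith

end MTOR

theorem t_TOR (hGEN : S_GEN) : S_TOR := by
  refine ⟨fun d n β S T hd hβ hS hT => MTOR.part1 hGEN d n β S T hd hβ hS hT, ?_⟩
  intro d β ε δ hd hβ hε _ hδ
  exact MTOR.part2 hGEN d β ε δ hd hβ hε hδ

end Pool.Agent.SGZ
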