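import Pool.Agent.SGZ.St

set_option autoImplicit false

/-!
# UPP: a spectral gap gives mixing (helper15)
-/

namespace Pool.Agent.SGZ

open Finset

namespace MUPP

section

variable {V : Type} [Fintype V] [DecidableEq V]

/-- the iterated operator -/
noncomputable def T (w : (V → Bool) → ℝ) (t : ℕ) (f : (V → Bool) → ℝ) : (V → Bool) → ℝ :=
  (glauber w ^ t).mulVec f

theorem T_succ (w : (V → Bool) → ℝ)
    (h1 : ∀ f σ, ∑ τ, glauber w σ τ * f τ = Pf w f σ) (t : ℕ) (f : (V → Bool) → ℝ) :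
    T w (t + 1) f = Pf w (T w t f) := by
  funext σ
  rw [← h1]
  unfold T
  rw [pow_succ', ← Matrix.mulVec_mulVec]
  rfl

theorem T_succ' (w : (V → Bool) → ℝ)
    (h1 : ∀ f σ, ∑ τ, glauber w σ τ * f τ = Pf w f σ) (t : ℕ) (f : (V → Bool) → ℝ) :
    T w (t + 1) f = T w t (Pf w f) := by
  unfold T
  rw [pow_succ, ← Matrix.mulVec_mulVec]
  congr 1
  funext σ
  rw [← h1]
  rfl

theorem T_symm (w : (V → Bool) → ℝ)
    (h1 : ∀ f σ, ∑ τ, glauber w σ τ * f τ = Pf w f σ)
    (h2 : ∀ f g, ip w (Pf w f) g = ip w f (Pf w g)) (t : ℕ) :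
    ∀ f g : (V → Bool) → ℝ, ip w (T w t f) g = ip w f (T w t g) := by
  induction t with
  | zero =>
    intro f g
    unfold T
    rw [pow_zero, Matrix.one_mulVec, Matrix.one_mulVec]
  | succ t ih =>
    intro f g
    rw [T_succ w h1, h2, ih, ← T_succ' w h1]

theorem T_one (w : (V → Bool) → ℝ)
    (h1 : ∀ f σ, ∑ τ, glauber w σ τ * f τ = Pf w f σ)
    (h6 : ∀ c : ℝ, Pf w (fun _ => c) = fun _ => c) (t : ℕ) :
    T w t (fun _ => 1) = fun _ => 1 := by
  induction t with
  | zero =>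
    unfold T
    rw [pow_zero, Matrix.one_mulVec]
  | succ t ih => rw [T_succ w h1, ih, h6]

theorem contract (w : (V → Bool) → ℝ) (hw : ∀ σ, 0 < w σ) (g : ℝ) (hgap : Gap w g) (hg : 0 < g)
    (h2 : ∀ f g, ip w (Pf w f) g = ip w f (Pf w g))
    (h3 : ∀ f, ip w f f - ip w (Pf w f) f = dir w f)
    (h4 : ∀ f, ip w (Pf w f) (Pf w f) ≤ ip w (Pf w f) f)
    (h6 : ∀ c : ℝ, Pf w (fun _ => c) = fun _ => c) (f : (V → Bool) → ℝ)
    (hf : ∑ σ, w σ * f σ = 0) :
    ip w (Pf w f) (Pf w f) ≤ Real.exp (-g) * ip w f f ∧ ∑ σ, w σ * Pf w f σ = 0 := by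
  have hff : 0 ≤ ip w f f := by
    unfold ip
    exact Finset.sum_nonneg fun σ _ => by
      rw [mul_assoc]
      exact mul_nonneg (hw σ).le (mul_self_nonneg _)
  constructor
  · obtain ⟨c, hc⟩ := hgap f
    have hexp : ∑ σ, w σ * (f σ - c) ^ 2 = ip w f f - 2 * c * ∑ σ, w σ * f σ + c ^ 2 * ∑ σ, w σ := by
      unfold ip
      rw [Finset.mul_sum, Finset.mul_sum, ← Finset.sum_sub_distrib, ← Finset.sum_add_distrib]
      exact Finset.sum_congr rfl fun σ _ => by ring
    have hW : 0 ≤ ∑ σ, w σ := Finset.sum_nonneg fun σ _ => (hw σ).le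
    have h5 : ip w f f ≤ ∑ σ, w σ * (f σ - c) ^ 2 := by
      rw [hexp, hf]
      nlinarith [mul_nonneg (sq_nonneg c) hW]
    have h7 : g * ip w f f ≤ dir w f := le_trans (mul_le_mul_of_nonneg_left h5 hg.le) hc
    have h8 := h3 f
    have h9 := h4 f
    have h10 : 1 - g ≤ Real.exp (-g) := by
      have := Real.add_one_le_exp (-g)
      linarith
    have h11 : (1 - g) * ip w f f ≤ Real.exp (-g) * ip w f f :=
      mul_le_mul_of_nonneg_right h10 hff
    nlinarith
  · have h5 := h2 f (fun _ => 1)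
    rw [h6] at h5
    unfold ip at h5
    simp only [mul_one] at h5
    rw [h5, hf]

end

end MUPP

theorem t_UPP (hPRJ : S_PRJ) : S_UPP := by
  intro V _ _ _ w g K t hw hg hgap hK hKt σ₀
  obtain ⟨h1, h2, h3, h4, h5, h6, -⟩ := hPRJ V w hw
  set W : ℝ := ∑ τ, w τ with hW
  have hWpos : 0 < W := Finset.sum_pos (fun σ _ => hw σ) Finset.univ_nonempty
  obtain ⟨k0, hk0⟩ : ∃ k : (V → Bool) → ℝ, k = fun x => if x = σ₀ then W / w σ₀ else 0 := ⟨_, rfl⟩
  obtain ⟨h0, hh0⟩ : ∃ h : (V → Bool) → ℝ, h = fun x => k0 x - 1 := ⟨_, rfl⟩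
  have hk1 : ∀ f : (V → Bool) → ℝ, ip w k0 f = W * f σ₀ := by
    intro f
    unfold ip
    rw [Finset.sum_eq_single σ₀]
    · rw [hk0]
      simp only [if_true]
      have := (hw σ₀).ne'
      field_simp
    · intro x _ hx
      rw [hk0]
      simp only [if_neg hx, mul_zero, zero_mul]
    · intro h
      exact absurd (Finset.mem_univ _) h
  -- the transition probabilities
  have hrev : ∀ τ, w τ * MUPP.T w t k0 τ = W * (glauber w ^ t) σ₀ τ := by
    intro τ
    have e1 : ip w (MUPP.T w t k0) (fun x => if x = τ then 1 else 0) = w τ * MUPP.T w t k0 τ := by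
      unfold ip
      rw [Finset.sum_eq_single τ]
      · simp
      · intro x _ hx
        simp [hx]
      · intro h
        exact absurd (Finset.mem_univ _) h
    rw [← e1, MUPP.T_symm w h1 h2, hk1]
    congr 1
    unfold MUPP.T Matrix.mulVec dotProduct
    rw [Finset.sum_eq_single τ]
    · simp
    · intro x _ hx
      simp [hx]
    · intro h
      exact absurd (Finset.mem_univ _) h
  have hTk : ∀ τ, MUPP.T w t k0 τ = MUPP.T w t h0 τ + 1 := by
    intro τ
    have e1 : k0 = h0 + fun _ => 1 := by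
      funext x
      rw [hh0]
      simp
    rw [e1]
    have e2 := congrFun (MUPP.T_one w h1 h6 t) τ
    unfold MUPP.T at e2 ⊢
    rw [Matrix.mulVec_add, Pi.add_apply, e2]
  have hsum0 : ∑ σ, w σ * h0 σ = 0 := by
    have e1 := hk1 (fun _ => 1)
    unfold ip at e1
    simp only [mul_one] at e1
    rw [hh0]
    simp only [mul_sub, mul_one]
    rw [Finset.sum_sub_distrib, e1, ← hW]
    ring
  have hnorm0 : ip w h0 h0 ≤ W * (W / w σ₀) := by
    have e1 := hk1 k0
    have e2 := hk1 (fun _ => 1)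
    have e3 : ip w h0 h0 = ip w k0 k0 - 2 * ip w k0 (fun _ => 1) + ∑ σ, w σ := by
      unfold ip
      rw [Finset.mul_sum, ← Finset.sum_sub_distrib, ← Finset.sum_add_distrib]
      refine Finset.sum_congr rfl fun σ _ => ?_
      rw [hh0]
      ring
    have e4 : k0 σ₀ = W / w σ₀ := by
      rw [hk0]
      simp
    rw [e3, e1, e2, e4, ← hW]
    nlinarith
  have hdecay : ∀ n : ℕ, ip w (MUPP.T w n h0) (MUPP.T w n h0) ≤
      Real.exp (-(g * n)) * ip w h0 h0 ∧ ∑ σ, w σ * MUPP.T w n h0 σ = 0 := by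
    intro n
    induction n with
    | zero =>
      have e : MUPP.T w 0 h0 = h0 := by
        unfold MUPP.T
        rw [pow_zero, Matrix.one_mulVec]
      rw [e]
      simp [hsum0]
    | succ n ih =>
      obtain ⟨i1, i2⟩ := ih
      obtain ⟨c1, c2⟩ := MUPP.contract w hw g hgap hg h2 h3 h4 h6 _ i2
      rw [MUPP.T_succ w h1]
      refine ⟨?_, c2⟩
      calc ip w (Pf w (MUPP.T w n h0)) (Pf w (MUPP.T w n h0))
          ≤ Real.exp (-g) * ip w (MUPP.T w n h0) (MUPP.T w n h0) := c1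
        _ ≤ Real.exp (-g) * (Real.exp (-(g * n)) * ip w h0 h0) :=
            mul_le_mul_of_nonneg_left i1 (Real.exp_pos _).le
        _ = Real.exp (-(g * (n + 1 : ℕ))) * ip w h0 h0 := by
            rw [← mul_assoc, ← Real.exp_add]
            congr 2
            push_cast
            ring
  have hfin : ip w (MUPP.T w t h0) (MUPP.T w t h0) ≤ W * Real.exp (-2) := by
    have hKσ := hK σ₀
    calc ip w (MUPP.T w t h0) (MUPP.T w t h0)
        ≤ Real.exp (-(g * t)) * ip w h0 h0 := (hdecay t).1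
      _ ≤ Real.exp (-(g * t)) * (W * (W / w σ₀)) :=
          mul_le_mul_of_nonneg_left hnorm0 (Real.exp_pos _).le
      _ ≤ Real.exp (-(g * t)) * (W * Real.exp (K - 2)) := by
          refine mul_le_mul_of_nonneg_left ?_ (Real.exp_pos _).le
          exact mul_le_mul_of_nonneg_left hKσ hWpos.le
      _ = W * Real.exp (-(g * t) + (K - 2)) := by
          rw [Real.exp_add]
          ring
      _ ≤ W * Real.exp (-2) := by
          refine mul_le_mul_of_nonneg_left ?_ hWpos.le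
          apply Real.exp_le_exp.2
          linarith
  have habs : ∀ τ, |(glauber w ^ t) σ₀ τ - gibbs w τ| = w τ / W * |MUPP.T w t h0 τ| := by
    intro τ
    have e1 := hrev τ
    rw [hTk] at e1
    have e2 : (glauber w ^ t) σ₀ τ - gibbs w τ = w τ / W * MUPP.T w t h0 τ := by
      unfold gibbs
      rw [← hW]
      field_simp
      linarith
    rw [e2, abs_mul, abs_of_pos (div_pos (hw τ) hWpos)]
  rw [Finset.sum_congr rfl fun τ _ => habs τ]
  have hcs : (∑ τ, w τ / W * |MUPP.T w t h0 τ|) ^ 2 ≤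
      (∑ τ, w τ / W) * ∑ τ, w τ / W * MUPP.T w t h0 τ ^ 2 := by
    apply Finset.sum_sq_le_sum_mul_sum_of_sq_le_mul
    · intro τ _
      exact (div_pos (hw τ) hWpos).le
    · intro τ _
      exact mul_nonneg (div_pos (hw τ) hWpos).le (sq_nonneg _)
    · intro τ _
      rw [mul_pow, sq_abs]
      exact le_of_eq (by ring)
  have e1 : ∑ τ, w τ / W = 1 := by
    rw [← Finset.sum_div, ← hW]
    exact div_self hWpos.ne'
  have e2 : ∑ τ, w τ / W * MUPP.T w t h0 τ ^ 2 = ip w (MUPP.T w t h0) (MUPP.T w t h0) / W := by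
    unfold ip
    rw [Finset.sum_div]
    refine Finset.sum_congr rfl fun τ _ => by ring
  have e3 : ip w (MUPP.T w t h0) (MUPP.T w t h0) / W ≤ Real.exp (-2) := by
    rw [div_le_iff₀ hWpos]
    linarith
  have e4 : Real.exp (-2) ≤ 1 / 4 := by
    have a1 : (2 : ℝ) ≤ Real.exp 1 := by
      have := Real.add_one_le_exp (1 : ℝ)
      linarith
    have a2 : Real.exp (-2) * (Real.exp 1 * Real.exp 1) = 1 := by
      rw [← Real.exp_add, ← Real.exp_add]
      norm_num
    have a3 : 0 < Real.exp (-2) := Real.exp_pos _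
    nlinarith [mul_le_mul_of_nonneg_left (mul_le_mul a1 a1 (by norm_num) (by linarith)) a3.le]
  rw [e1, e2, one_mul] at hcs
  have hnn : 0 ≤ ∑ τ, w τ / W * |MUPP.T w t h0 τ| :=
    Finset.sum_nonneg fun τ _ => mul_nonneg (div_pos (hw τ) hWpos).le (abs_nonneg _)
  nlinarith

end Pool.Agent.SGZ
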