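import Pool.Agent.SGZ.Fin0
import Pool.Agent.SGZ.MPRJ
import Pool.Agent.SGZ.MUPP
import Pool.Agent.SGZ.MLOW
import Pool.Agent.SGZ.MCMP
import Pool.Agent.SGZ.MHAM
import Pool.Agent.SGZ.MGEN
import Pool.Agent.SGZ.MTOR

/-! Zero-one law for slow mixing of the spin glass: composition of the modules. -/

namespace Pool.Agent.SGZ

theorem gen_all : S_GEN := t_GEN (t_UPP t_PRJ) (t_LOW t_PRJ) t_CMP t_HAM

theorem tor_all : S_TOR := t_TOR gen_all

end Pool.Agent.SGZ
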