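import Pool.Agent.SGZ.St

/-! Zero-one law for slow mixing of the spin glass: the limit statement. -/

namespace Pool.Agent.SGZ

open Finset Filter Topology

theorem prob_le_one {E : Type*} [Fintype E] (A : Set (E → Bool)) : prob A ≤ 1 := by
  classical
  unfold prob
  rw [div_le_one (by positivity)]
  have h : A.ncard ≤ (Set.univ : Set (E → Bool)).ncard := Set.ncard_le_ncard (Set.subset_univ _) (Set.toFinite _)
  rw [Set.ncard_univ, Nat.card_eq_fintype_card, Fintype.card_fun, Fintype.card_bool] at h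
  exact_mod_cast h

theorem probMixGe_anti (d n : ℕ) (β : ℝ) {S T : ℝ} (h : S ≤ T) :
    probMixGe d n β T ≤ probMixGe d n β S := by
  unfold probMixGe prob
  refine div_le_div_of_nonneg_right ?_ (by positivity)
  have : {J : TE d n → Bool | MixGe (weight (src d n) (tgt d n) β J) T} ⊆
      {J : TE d n → Bool | MixGe (weight (src d n) (tgt d n) β J) S} :=
    fun J hJ t ht => h.trans (hJ t ht)
  exact_mod_cast Set.ncard_le_ncard this (Set.toFinite _)

theorem tendsto_side : Tendsto (fun n : ℕ => ((n : ℝ) + 3)) atTop atTop :=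
  tendsto_atTop_add_const_right _ _ tendsto_natCast_atTop_atTop

/-- the statement on limits -/
theorem lim_one (hTOR : S_TOR) (d : ℕ) (β ε ε' δ : ℝ) (hd : 1 ≤ d) (hβ : 0 < β)
    (hε : (d : ℝ) / 2 < ε) (hδ : δ < 2 * ε - d) (hε' : ε' < ε)
    (h : ∀ᶠ n : ℕ in atTop, Real.exp (-(n + 3 : ℝ) ^ δ) ≤
      probMixGe d n β (Real.exp ((n + 3 : ℝ) ^ ε))) :
    Tendsto (fun n : ℕ => probMixGe d n β (Real.exp ((n + 3 : ℝ) ^ ε'))) atTop (𝓝 1) := by
  have hdpos : (0 : ℝ) < d := by exact_mod_cast hd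
  have hεpos : 0 < ε := lt_trans (by positivity) hε
  -- positive exponents
  obtain ⟨δ', hδ1, hδ0, hδ2⟩ : ∃ δ' : ℝ, δ ≤ δ' ∧ 0 < δ' ∧ δ' < 2 * ε - d := by
    refine ⟨max δ ((2 * ε - d) / 2), le_max_left _ _, lt_max_of_lt_right (by linarith),
      max_lt hδ (by linarith)⟩
  obtain ⟨ε₂, h1, h2, h3, h4⟩ : ∃ ε₂ : ℝ, (d : ℝ) / 2 < ε₂ ∧ ε₂ < ε ∧ δ' < 2 * ε₂ - d ∧ 0 < ε₂ := by
    refine ⟨(ε + (d + δ') / 2) / 2, by linarith, by linarith, by linarith, by linarith⟩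
  obtain ⟨n0, hn0⟩ := hTOR.2 d β ε₂ δ' hd hβ h4 h1 h3
  -- comparison of powers
  have hpow : ∀ a b : ℝ, a < b → Tendsto (fun n : ℕ => ((n : ℝ) + 3) ^ (b - a)) atTop atTop :=
    fun a b hab => (tendsto_rpow_atTop (by linarith)).comp tendsto_side
  have e1 : ∀ᶠ n : ℕ in atTop, ((n : ℝ) + 3) ^ ε₂ ≤ ((n : ℝ) + 3) ^ ε / 2 := by
    filter_upwards [(hpow ε₂ ε h2).eventually_ge_atTop 2] with n hn
    have hp : (0 : ℝ) < (n : ℝ) + 3 := by positivity
    have : ((n : ℝ) + 3) ^ ε = ((n : ℝ) + 3) ^ ε₂ * ((n : ℝ) + 3) ^ (ε - ε₂) := by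
      rw [← Real.rpow_add hp]; congr 1; ring
    rw [this]
    nlinarith [Real.rpow_pos_of_pos hp ε₂]
  have e2 : ∀ᶠ n : ℕ in atTop, ((n : ℝ) + 3) ^ ε' ≤ ((n : ℝ) + 3) ^ ε / 2 := by
    filter_upwards [(hpow ε' ε hε').eventually_ge_atTop 2] with n hn
    have hp : (0 : ℝ) < (n : ℝ) + 3 := by positivity
    have : ((n : ℝ) + 3) ^ ε = ((n : ℝ) + 3) ^ ε' * ((n : ℝ) + 3) ^ (ε - ε') := by
      rw [← Real.rpow_add hp]; congr 1; ring
    rw [this]
    nlinarith [Real.rpow_pos_of_pos hp ε']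
  have e3 : Tendsto (fun n : ℕ => 1 - Real.exp (-((n : ℝ) + 3) ^ δ')) atTop (𝓝 1) := by
    have h5 : Tendsto (fun n : ℕ => ((n : ℝ) + 3) ^ δ') atTop atTop :=
      (tendsto_rpow_atTop hδ0).comp tendsto_side
    have h6 := Real.tendsto_exp_neg_atTop_nhds_zero.comp h5
    have h7 := h6.const_sub 1
    simpa using h7
  refine tendsto_of_tendsto_of_tendsto_of_le_of_le' e3 tendsto_const_nhds ?_
    (Eventually.of_forall fun n => prob_le_one _)
  filter_upwards [e1, e2, h, eventually_ge_atTop n0] with n ha hb hc hn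
  have hp : (0 : ℝ) < (n : ℝ) + 3 := by positivity
  have hp1 : (1 : ℝ) ≤ (n : ℝ) + 3 := by linarith [(Nat.cast_nonneg n : (0 : ℝ) ≤ n)]
  have hE := Real.rpow_pos_of_pos hp ε
  rcases hn0 n hn (((n : ℝ) + 3) ^ ε - ((n : ℝ) + 3) ^ ε₂) (by linarith) with h8 | h8
  · exfalso
    rw [sub_add_cancel] at h8
    have h9 : Real.exp (-((n : ℝ) + 3) ^ δ') ≤ Real.exp (-((n : ℝ) + 3) ^ δ) := by
      refine Real.exp_le_exp.2 (neg_le_neg ?_)
      exact Real.rpow_le_rpow_of_exponent_le hp1 hδ1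
    linarith
  · refine h8.trans (probMixGe_anti d n β (Real.exp_le_exp.2 ?_))
    linarith

end Pool.Agent.SGZ
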