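import Pool.Agent.SGZ.St2
import Pool.Agent.SGZ.MGEN

/-!
# SGZ, module CLO: the general theorem with the closed event
-/

set_option autoImplicit false
set_option linter.unusedSectionVars false

namespace Pool.Agent.SGZ

open Finset

namespace MCLO

open MGEN

section

variable {V E : Type} [Fintype V] [DecidableEq V] [Fintype E] [DecidableEq E]

/-- the main step -/
theorem dist_le (hUPP : S_UPP) (hLOW : S_LOW) (hCMP : S_CMP) [Nonempty V]
    (a b : E → V) {β K S T : ℝ} (hβ : 0 < β) (hS : 1 ≤ S)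
    (hK : K = 2 * β * Fintype.card E + Fintype.card V + 2) (hT : 3 * K * S ≤ T)
    (J J' : E → Bool) (hJ : ∃ t : ℕ, (t : ℝ) ≤ S ∧ Mixed (weight a b β J) t) (hJ' : MixGe (weight a b β J') T) :
    Real.log (T / (3 * K * S)) / (4 * β) ≤ (hammingDist J J' : ℝ) := by
  have hK2 : 2 ≤ K := by
    rw [hK]
    have h1 : 0 ≤ 2 * β * (Fintype.card E : ℝ) := by positivity
    have h2 : (0 : ℝ) ≤ Fintype.card V := by positivity
    linarith
  have hKS : 0 < 3 * K * S := by positivity
  have hT0 : 0 < T := lt_of_lt_of_le hKS hT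
  obtain ⟨t, htS, ht⟩ := hJ
  have ht1 : 1 ≤ t := by
    rcases Nat.eq_zero_or_pos t with h | h
    · subst h; exact absurd ht (not_mixed_zero _)
    · exact h
  have hgap := hLOW V (weight a b β J) t (weight_pos a b β J) ht1 ht
  have ht0 : (0 : ℝ) < t := by exact_mod_cast ht1
  have hS0 : 0 < S := by linarith
  have hgap2 : Gap (weight a b β J) (1 / (2 * S)) := by
    refine gap_mono (weight_pos a b β J) ?_ hgap
    exact one_div_le_one_div_of_le (by positivity) (by linarith)
  obtain ⟨κ, hκ⟩ : ∃ κ : ℝ, κ = Real.exp (2 * β * (hammingDist J J' : ℝ)) := ⟨_, rfl⟩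
  have hκ0 : 0 < κ := by rw [hκ]; exact Real.exp_pos _
  have hκ1 : 1 ≤ κ := by
    rw [hκ]
    exact Real.one_le_exp (by positivity)
  have hgap3 := hCMP V (weight a b β J) (weight a b β J') (1 / (2 * S)) κ (weight_pos a b β J)
    (weight_pos a b β J') (by positivity) hκ0
    (fun σ => by rw [hκ]; exact weight_le a b hβ J J' σ)
    (fun σ => by rw [hκ, hammingDist_comm]; exact weight_le a b hβ J' J σ) hgap2
  obtain ⟨g, hg⟩ : ∃ g : ℝ, g = 1 / (2 * S) / κ ^ 2 := ⟨_, rfl⟩
  rw [← hg] at hgap3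
  have hg0 : 0 < g := by rw [hg]; positivity
  have hmix := hUPP V (weight a b β J') g K ⌈K / g⌉₊ (weight_pos a b β J') hg0 hgap3
    (fun σ => by
      refine (ratio_le a b hβ J' σ).trans (le_of_eq ?_)
      rw [hK]
      congr 1
      ring)
    (by
      have h1 := Nat.le_ceil (K / g)
      rw [div_le_iff₀ hg0] at h1
      linarith)
  have h1 := hJ' _ hmix
  have h2 : ((⌈K / g⌉₊ : ℕ) : ℝ) < K / g + 1 :=
    Nat.ceil_lt_add_one (div_nonneg (by linarith) hg0.le)
  have h3 : K / g = 2 * K * S * κ ^ 2 := by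
    rw [hg]; field_simp
  have h4 : 1 ≤ K * S * κ ^ 2 := by
    have h5 : 1 ≤ κ ^ 2 := one_le_pow₀ hκ1
    have h6 : 1 ≤ K * S := by nlinarith
    nlinarith
  have h5 : T ≤ 3 * K * S * κ ^ 2 := by
    have h2' := lt_of_le_of_lt h1 h2
    rw [h3] at h2'
    nlinarith
  have h6 : κ ^ 2 = Real.exp (4 * β * (hammingDist J J' : ℝ)) := by
    rw [hκ, ← Real.exp_nat_mul]
    congr 1
    push_cast
    ring
  have h7 : T / (3 * K * S) ≤ Real.exp (4 * β * (hammingDist J J' : ℝ)) := by
    rw [div_le_iff₀ hKS, ← h6]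
    linarith
  have h8 : Real.log (T / (3 * K * S)) ≤ 4 * β * (hammingDist J J' : ℝ) := by
    rw [Real.log_le_iff_le_exp (div_pos hT0 hKS)]
    exact h7
  rw [div_le_iff₀ (by positivity)]
  linarith

end

end MCLO

open MGEN MCLO in
theorem t_CLO (hUPP : S_UPP) (hLOW : S_LOW) (hCMP : S_CMP) (hHAM : S_HAM) : S_CLO := by
  intro V E _ _ _ _ _ a b β K S T hβ hS hK hT
  classical
  have hK2 : 2 ≤ K := by
    rw [hK]
    have h1 : 0 ≤ 2 * β * (Fintype.card E : ℝ) := by positivity
    have h2 : (0 : ℝ) ≤ Fintype.card V := by positivity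
    linarith
  have hKS : 0 < 3 * K * S := by positivity
  have hD0 : 0 ≤ Real.log (T / (3 * K * S)) / (4 * β) := by
    refine div_nonneg (Real.log_nonneg ?_) (by positivity)
    rw [le_div_iff₀ hKS, one_mul]
    exact hT
  have hA : ({J : E → Bool | ∃ t : ℕ, (t : ℝ) ≤ S ∧ Mixed (weight a b β J) t}).ncard =
      (univ.filter fun J : E → Bool => ∃ t : ℕ, (t : ℝ) ≤ S ∧ Mixed (weight a b β J) t).card := by
    rw [← Set.ncard_coe_finset]
    congr 1
    ext J
    simp
  have hB : ({J : E → Bool | MixGe (weight a b β J) T}).ncard =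
      (univ.filter fun J : E → Bool => MixGe (weight a b β J) T).card := by
    rw [← Set.ncard_coe_finset]
    congr 1
    ext J
    simp
  have hmain := hHAM E (univ.filter fun J : E → Bool => ∃ t : ℕ, (t : ℝ) ≤ S ∧ Mixed (weight a b β J) t)
    (univ.filter fun J : E → Bool => MixGe (weight a b β J) T)
    (Real.log (T / (3 * K * S)) / (4 * β)) hD0
    (by
      intro x hx y hy
      rw [mem_filter] at hx hy
      exact MCLO.dist_le hUPP hLOW hCMP a b hβ hS hK hT x y hx.2 hy.2)
  unfold prob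
  rw [hA, hB, div_mul_div_comm, ← mul_pow, div_le_iff₀ (by positivity)]
  refine hmain.trans (le_of_eq ?_)
  have e1 : (Real.log (T / (3 * K * S)) / (4 * β)) ^ 2 / (Fintype.card E : ℝ) =
      Real.log (T / (3 * K * S)) ^ 2 / (16 * β ^ 2 * Fintype.card E) := by
    rw [div_pow, div_div]
    congr 1
    ring
  rw [e1]
  norm_num
  ring

end Pool.Agent.SGZ
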