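import Pool.Agent.SGZ.St2
import Pool.Agent.SGZ.Fin0

/-!
# SGZ, module EQV: the exponents of slow mixing above `d / 2` are those of the sequence `M`
-/

namespace Pool.Agent.SGZ

open Finset Filter Topology

namespace MEQV

theorem prob_mono {E : Type*} [Fintype E] {A B : Set (E → Bool)} (h : A ⊆ B) :
    prob A ≤ prob B := by
  unfold prob
  refine div_le_div_of_nonneg_right ?_ (by positivity)
  exact_mod_cast Set.ncard_le_ncard h (Set.toFinite _)

theorem inter {E : Type*} [Fintype E] {A B : Set (E → Bool)} (hA : 1 / 2 < prob A)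
    (hB : 1 / 2 < prob B) : ∃ J, J ∈ A ∧ J ∈ B := by
  by_contra hcon
  have hd : Disjoint A B := by
    rw [Set.disjoint_left]
    intro J h1 h2
    exact hcon ⟨J, h1, h2⟩
  have h1 : prob (A ∪ B) = prob A + prob B := by
    unfold prob
    rw [Set.ncard_union_eq hd (Set.toFinite _) (Set.toFinite _)]
    push_cast
    ring
  have h2 := prob_le_one (A ∪ B)
  linarith

theorem half_ev (a c : ℝ) (h : a < c) :
    ∀ᶠ n : ℕ in atTop, ((n : ℝ) + 3) ^ a ≤ ((n : ℝ) + 3) ^ c / 2 := by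
  have hpow : Tendsto (fun n : ℕ => ((n : ℝ) + 3) ^ (c - a)) atTop atTop :=
    (tendsto_rpow_atTop (by linarith)).comp tendsto_side
  filter_upwards [hpow.eventually_ge_atTop 2] with n hn
  have hp : (0 : ℝ) < (n : ℝ) + 3 := by positivity
  have h1 : ((n : ℝ) + 3) ^ c = ((n : ℝ) + 3) ^ a * ((n : ℝ) + 3) ^ (c - a) := by
    rw [← Real.rpow_add hp]; congr 1; ring
  rw [h1]
  nlinarith [Real.rpow_pos_of_pos hp a]

theorem one_lim (δ : ℝ) (hδ : 0 < δ) :
    Tendsto (fun n : ℕ => 1 - Real.exp (-((n : ℝ) + 3) ^ δ)) atTop (𝓝 1) := by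
  have h5 : Tendsto (fun n : ℕ => ((n : ℝ) + 3) ^ δ) atTop atTop :=
    (tendsto_rpow_atTop hδ).comp tendsto_side
  have h6 := Real.tendsto_exp_neg_atTop_nhds_zero.comp h5
  have h7 := h6.const_sub 1
  simpa using h7

theorem mixGe_anti {V : Type*} [Fintype V] [DecidableEq V] (w : (V → Bool) → ℝ) {S T : ℝ}
    (h : S ≤ T) (hT : MixGe w T) : MixGe w S :=
  fun t ht => h.trans (hT t ht)

end MEQV

open MEQV in
theorem t_EQV : S_EQV := by
  intro d β M hd hβ hconc ε hε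
  constructor
  · -- from the probabilities to `M`
    intro H ε' hε'
    obtain ⟨ε₂, h21, h22⟩ := exists_between hε
    obtain ⟨ε₁, h11, h12⟩ := exists_between (max_lt h22 hε')
    have ha : ε₂ < ε₁ := lt_of_le_of_lt (le_max_left _ _) h11
    have hb : ε' < ε₁ := lt_of_le_of_lt (le_max_right _ _) h11
    have hδ0 : (0 : ℝ) < (2 * ε₂ - d) / 2 := by linarith
    have c1 := hconc ε₂ ((2 * ε₂ - d) / 2) h21 (by linarith)
    have c2 : ∀ᶠ n : ℕ in atTop, (1 / 2 : ℝ) <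
        probMixGe d n β (Real.exp ((n + 3 : ℝ) ^ ε₁)) :=
      (H ε₁ h12).eventually_const_lt (by norm_num)
    have c3 : ∀ᶠ n : ℕ in atTop, (1 / 2 : ℝ) <
        1 - Real.exp (-((n : ℝ) + 3) ^ ((2 * ε₂ - d) / 2)) :=
      (one_lim _ hδ0).eventually_const_lt (by norm_num)
    filter_upwards [c1, c2, c3, half_ev ε₂ ε₁ ha, half_ev ε' ε₁ hb] with n g1 g2 g3 g4 g5
    have g6 : (1 / 2 : ℝ) < probBetween d n β (M n * Real.exp (-(n + 3 : ℝ) ^ ε₂))
        (M n * Real.exp ((n + 3 : ℝ) ^ ε₂)) := lt_of_lt_of_le g3 g1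
    obtain ⟨J, hJ1, hJ2, hJ3⟩ := inter g2 g6
    have g7 : Real.exp ((n + 3 : ℝ) ^ ε₁) < M n * Real.exp ((n + 3 : ℝ) ^ ε₂) := by
      by_contra hcon
      exact hJ3 (mixGe_anti _ (not_lt.1 hcon) hJ1)
    have g8 : Real.exp ((n + 3 : ℝ) ^ ε') * Real.exp ((n + 3 : ℝ) ^ ε₂) ≤
        Real.exp ((n + 3 : ℝ) ^ ε₁) := by
      rw [← Real.exp_add]
      exact Real.exp_le_exp.2 (by linarith)
    exact le_of_mul_le_mul_right (g8.trans g7.le) (Real.exp_pos _)
  · -- from `M` to the probabilities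
    intro H ε' hε'
    obtain ⟨ε₂, h21, h22⟩ := exists_between hε
    obtain ⟨ε₁, h11, h12⟩ := exists_between (max_lt h22 hε')
    have ha : ε₂ < ε₁ := lt_of_le_of_lt (le_max_left _ _) h11
    have hb : ε' < ε₁ := lt_of_le_of_lt (le_max_right _ _) h11
    have hδ0 : (0 : ℝ) < (2 * ε₂ - d) / 2 := by linarith
    have c1 := hconc ε₂ ((2 * ε₂ - d) / 2) h21 (by linarith)
    refine tendsto_of_tendsto_of_tendsto_of_le_of_le' (one_lim _ hδ0) tendsto_const_nhds ?_
      (Eventually.of_forall fun n => prob_le_one _)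
    filter_upwards [c1, H ε₁ h12, half_ev ε₂ ε₁ ha, half_ev ε' ε₁ hb] with n g1 g2 g4 g5
    refine g1.trans ?_
    have g6 : probBetween d n β (M n * Real.exp (-(n + 3 : ℝ) ^ ε₂))
        (M n * Real.exp ((n + 3 : ℝ) ^ ε₂)) ≤
        probMixGe d n β (M n * Real.exp (-(n + 3 : ℝ) ^ ε₂)) :=
      prob_mono fun J hJ => hJ.1
    refine g6.trans (probMixGe_anti d n β ?_)
    have g7 : Real.exp ((n + 3 : ℝ) ^ ε') ≤
        Real.exp ((n + 3 : ℝ) ^ ε₁) * Real.exp (-(n + 3 : ℝ) ^ ε₂) := by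
      rw [← Real.exp_add]
      exact Real.exp_le_exp.2 (by linarith)
    exact g7.trans (mul_le_mul_of_nonneg_right g2 (Real.exp_pos _).le)

end Pool.Agent.SGZ
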