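import Pool.Agent.SGZ.St2

/-!
# Module SGZ_FIN (helper98): the mixing time is finite
-/

set_option autoImplicit false

namespace Pool.Agent.SGZ

open Finset Filter Topology

namespace MFIN

variable {V : Type} [Fintype V] [DecidableEq V]

/-- the sum of all squared differences -/
noncomputable def DD (f : (V → Bool) → ℝ) : ℝ := ∑ v, ∑ σ, (f (up σ v) - f (dn σ v)) ^ 2

theorem one_step (f : (V → Bool) → ℝ) (σ : V → Bool) (v : V) (b : Bool) :
    |f σ - f (Function.update σ v b)| ≤ Real.sqrt (DD f) := by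
  apply Real.abs_le_sqrt
  have h1 : (f (up σ v) - f (dn σ v)) ^ 2 ≤ DD f := by
    have h2 : (f (up σ v) - f (dn σ v)) ^ 2 ≤ ∑ τ, (f (up τ v) - f (dn τ v)) ^ 2 :=
      Finset.single_le_sum (f := fun τ => (f (up τ v) - f (dn τ v)) ^ 2)
        (fun τ _ => sq_nonneg _) (Finset.mem_univ σ)
    have h3 : ∑ τ, (f (up τ v) - f (dn τ v)) ^ 2 ≤ DD f :=
      Finset.single_le_sum (f := fun u => ∑ τ, (f (up τ u) - f (dn τ u)) ^ 2)
        (fun u _ => Finset.sum_nonneg fun τ _ => sq_nonneg _) (Finset.mem_univ v)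
    exact h2.trans h3
  have h4 : σ = Function.update σ v (σ v) := (Function.update_eq_self v σ).symm
  refine le_trans ?_ h1
  unfold up dn
  rcases hb : σ v with _ | _
  · have h5 : f σ = f (Function.update σ v false) := by
      rw [hb] at h4
      rw [← h4]
    rcases b with _ | _
    · rw [← h5, sub_self, zero_pow two_ne_zero]
      exact sq_nonneg _
    · rw [h5]
      apply le_of_eq
      ring
  · have h5 : f σ = f (Function.update σ v true) := by
      rw [hb] at h4
      rw [← h4]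
    rcases b with _ | _
    · rw [h5]
    · rw [← h5, sub_self, zero_pow two_ne_zero]
      exact sq_nonneg _

theorem path (f : (V → Bool) → ℝ) (s : Finset V) :
    ∀ σ τ : V → Bool, (∀ u, u ∉ s → σ u = τ u) →
      |f σ - f τ| ≤ (s.card : ℝ) * Real.sqrt (DD f) := by
  induction s using Finset.induction_on with
  | empty =>
    intro σ τ h
    have h1 : σ = τ := funext fun u => h u (Finset.notMem_empty u)
    rw [h1]
    simp
  | insert v s hv ih =>
    intro σ τ h
    have h1 := one_step f σ v (τ v)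
    have h2 := ih (Function.update σ v (τ v)) τ (by
      intro u hu
      by_cases huv : u = v
      · subst huv
        simp
      · rw [Function.update_of_ne huv]
        exact h u (by
          rw [Finset.mem_insert, not_or]
          exact ⟨huv, hu⟩))
    rw [Finset.card_insert_of_notMem hv]
    have h3 : f σ - f τ = (f σ - f (Function.update σ v (τ v))) +
        (f (Function.update σ v (τ v)) - f τ) := by ring
    rw [h3]
    refine (abs_add_le _ _).trans ?_
    push_cast
    linarith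

theorem sq_le (f : (V → Bool) → ℝ) (σ τ : V → Bool) :
    (f σ - f τ) ^ 2 ≤ (Fintype.card V : ℝ) ^ 2 * DD f := by
  have h1 := path f Finset.univ σ τ (fun u hu => absurd (Finset.mem_univ u) hu)
  have h0 : 0 ≤ DD f := Finset.sum_nonneg fun v _ => Finset.sum_nonneg fun σ _ => sq_nonneg _
  have h2 := pow_le_pow_left₀ (abs_nonneg _) h1 2
  rw [sq_abs, mul_pow, Real.sq_sqrt h0, Finset.card_univ] at h2
  exact h2

end MFIN

open MFIN in
theorem t_FIN (hUPP : S_UPP) : S_FIN := by
  intro V _ _ _ w hw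
  obtain ⟨W, hW⟩ : ∃ W : ℝ, W = ∑ σ, w σ := ⟨_, rfl⟩
  have hW0 : 0 < W := by
    rw [hW]
    exact Finset.sum_pos (fun σ _ => hw σ) Finset.univ_nonempty
  obtain ⟨N, hN⟩ : ∃ N : ℝ, N = (Fintype.card V : ℝ) := ⟨_, rfl⟩
  have hN0 : 0 < N := by
    rw [hN]
    exact_mod_cast Fintype.card_pos
  -- the smallest conductance
  obtain ⟨p, -, hp⟩ := Finset.exists_min_image (Finset.univ : Finset (V × (V → Bool)))
    (fun p => w (up p.2 p.1) * w (dn p.2 p.1) / (w (up p.2 p.1) + w (dn p.2 p.1)))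
    Finset.univ_nonempty
  obtain ⟨a, ha⟩ : ∃ a : ℝ, a = w (up p.2 p.1) * w (dn p.2 p.1) /
      (w (up p.2 p.1) + w (dn p.2 p.1)) := ⟨_, rfl⟩
  have ha0 : 0 < a := by
    rw [ha]
    exact div_pos (mul_pos (hw _) (hw _)) (add_pos (hw _) (hw _))
  have hmin : ∀ (v : V) (σ : V → Bool), a ≤ w (up σ v) * w (dn σ v) / (w (up σ v) + w (dn σ v)) := by
    intro v σ
    rw [ha]
    exact hp (v, σ) (Finset.mem_univ _)
  have hg : 0 < a / (2 * N ^ 3 * W) := by positivity
  have hgap : Gap w (a / (2 * N ^ 3 * W)) := by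
    intro f
    obtain ⟨σ0⟩ : Nonempty (V → Bool) := inferInstance
    refine ⟨f σ0, ?_⟩
    have h1 : ∑ σ, w σ * (f σ - f σ0) ^ 2 ≤ W * (N ^ 2 * DD f) := by
      rw [hW, Finset.sum_mul]
      refine Finset.sum_le_sum fun σ _ => mul_le_mul_of_nonneg_left ?_ (hw σ).le
      rw [hN]
      exact sq_le f σ σ0
    have h2 : N⁻¹ * (1 / 2 * a * DD f) ≤ dir w f := by
      unfold dir DD
      rw [← hN]
      refine mul_le_mul_of_nonneg_left ?_ (inv_nonneg.2 hN0.le)
      rw [Finset.mul_sum]
      refine Finset.sum_le_sum fun v _ => ?_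
      rw [Finset.mul_sum]
      refine Finset.sum_le_sum fun σ _ => ?_
      refine mul_le_mul_of_nonneg_right ?_ (sq_nonneg _)
      exact mul_le_mul_of_nonneg_left (hmin v σ) (by norm_num)
    refine le_trans (mul_le_mul_of_nonneg_left h1 hg.le) (le_trans (le_of_eq ?_) h2)
    field_simp
  refine ⟨⌈(2 + ∑ σ, W / w σ) / (a / (2 * N ^ 3 * W))⌉₊, ?_⟩
  refine hUPP V w (a / (2 * N ^ 3 * W)) (2 + ∑ σ, W / w σ) _ hw hg hgap ?_ ?_
  · intro σ
    rw [← hW]
    have h1 : W / w σ ≤ ∑ τ, W / w τ :=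
      Finset.single_le_sum (f := fun τ => W / w τ)
        (fun τ _ => (div_pos hW0 (hw τ)).le) (Finset.mem_univ σ)
    have h2 := Real.add_one_le_exp (∑ τ, W / w τ)
    rw [add_sub_cancel_left]
    linarith
  · have h1 := Nat.le_ceil ((2 + ∑ σ, W / w σ) / (a / (2 * N ^ 3 * W)))
    rw [div_le_iff₀ hg] at h1
    linarith

end Pool.Agent.SGZ
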