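import Pool.Agent.SGZ.St2
import Pool.Agent.SGZ.MGEN

/-!
# SGZ, module MED: concentration about a median of the mixing time
-/

set_option autoImplicit false

namespace Pool.Agent.SGZ

open Finset

namespace MMED

section

variable {E : Type} [Fintype E]

theorem prob_nonneg (A : Set (E → Bool)) : 0 ≤ prob A := by
  unfold prob
  positivity

theorem prob_mono {A B : Set (E → Bool)} (h : A ⊆ B) : prob A ≤ prob B := by
  unfold prob
  have h1 : A.ncard ≤ B.ncard := Set.ncard_le_ncard h (Set.toFinite B)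
  have h2 : (A.ncard : ℝ) ≤ B.ncard := by exact_mod_cast h1
  gcongr

theorem prob_univ : prob (Set.univ : Set (E → Bool)) = 1 := by
  classical
  unfold prob
  rw [Set.ncard_univ, Nat.card_eq_fintype_card, Fintype.card_fun, Fintype.card_bool]
  push_cast
  exact div_self (by positivity)

theorem prob_empty : prob (∅ : Set (E → Bool)) = 0 := by
  unfold prob
  simp

theorem prob_union (A B : Set (E → Bool)) : prob (A ∪ B) ≤ prob A + prob B := by
  unfold prob
  rw [← add_div]
  have h1 : (A ∪ B).ncard ≤ A.ncard + B.ncard := Set.ncard_union_le A B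
  have h2 : ((A ∪ B).ncard : ℝ) ≤ A.ncard + B.ncard := by exact_mod_cast h1
  gcongr

theorem prob_ge_of_compl {A B : Set (E → Bool)} (h : Aᶜ ⊆ B) : 1 - prob B ≤ prob A := by
  have h1 : (Set.univ : Set (E → Bool)) ⊆ A ∪ B := by
    intro J _
    by_cases hJ : J ∈ A
    · exact Or.inl hJ
    · exact Or.inr (h hJ)
  have h2 := prob_mono h1
  have h3 := prob_union A B
  rw [prob_univ] at h2
  linarith

end

end MMED

open MMED in
theorem t_MED (hFIN : S_FIN) (hCLO : S_CLO) : S_MED := by
  intro V E _ _ _ _ _ a b β K hβ hK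
  classical
  have hK2 : 2 ≤ K := by
    rw [hK]
    have h1 : 0 ≤ 2 * β * (Fintype.card E : ℝ) := by positivity
    have h2 : (0 : ℝ) ≤ Fintype.card V := by positivity
    linarith
  have hK0 : 0 < K := by linarith
  have hfin : ∀ J : E → Bool, ∃ t : ℕ, Mixed (weight a b β J) t :=
    fun J => hFIN V (weight a b β J) (fun σ => Real.exp_pos _)
  have hone : ∀ (J : E → Bool) (t : ℕ), Mixed (weight a b β J) t → 1 ≤ t := by
    intro J t ht
    rcases Nat.eq_zero_or_pos t with h | h
    · subst h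
      exact absurd ht (MGEN.not_mixed_zero _)
    · exact h
  have hex : ∃ t : ℕ, 1 / 2 ≤ prob {J : E → Bool | ∃ u : ℕ, u ≤ t ∧ Mixed (weight a b β J) u} := by
    choose τ hτ using hfin
    refine ⟨univ.sup τ, ?_⟩
    have h1 : {J : E → Bool | ∃ u : ℕ, u ≤ univ.sup τ ∧ Mixed (weight a b β J) u} = Set.univ := by
      refine Set.eq_univ_of_forall fun J => ?_
      exact ⟨τ J, Finset.le_sup (f := τ) (mem_univ J), hτ J⟩
    rw [h1, prob_univ]
    norm_num
  obtain ⟨t0, ht0, hmin⟩ : ∃ t0 : ℕ,
      1 / 2 ≤ prob {J : E → Bool | ∃ u : ℕ, u ≤ t0 ∧ Mixed (weight a b β J) u} ∧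
      ∀ t < t0, ¬ 1 / 2 ≤ prob {J : E → Bool | ∃ u : ℕ, u ≤ t ∧ Mixed (weight a b β J) u} :=
    ⟨Nat.find hex, Nat.find_spec hex, fun t ht => Nat.find_min hex ht⟩
  have ht1 : 1 ≤ t0 := by
    rcases Nat.eq_zero_or_pos t0 with h | h
    · exfalso
      subst h
      have h1 : {J : E → Bool | ∃ u : ℕ, u ≤ 0 ∧ Mixed (weight a b β J) u} = ∅ := by
        refine Set.eq_empty_of_forall_notMem fun J hJ => ?_
        obtain ⟨u, hu, hm⟩ := hJ
        have := hone J u hm
        omega
      rw [h1, prob_empty] at ht0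
      norm_num at ht0
    · exact h
  have ht0R : (1 : ℝ) ≤ t0 := by exact_mod_cast ht1
  have ht0p : (0 : ℝ) < t0 := by linarith
  have hge : 1 / 2 ≤ prob {J : E → Bool | MixGe (weight a b β J) (t0 : ℝ)} := by
    have h1 := hmin (t0 - 1) (by omega)
    have h2 := prob_ge_of_compl
      (A := {J : E → Bool | MixGe (weight a b β J) (t0 : ℝ)})
      (B := {J : E → Bool | ∃ u : ℕ, u ≤ t0 - 1 ∧ Mixed (weight a b β J) u}) (by
        intro J hJ
        have hJ' : ¬ MixGe (weight a b β J) (t0 : ℝ) := hJ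
        unfold MixGe at hJ'
        push Not at hJ'
        obtain ⟨t, ht, htl⟩ := hJ'
        have h3 : t < t0 := by exact_mod_cast htl
        exact ⟨t, by omega, ht⟩)
    linarith [not_le.1 h1]
  refine ⟨t0, ht1, ?_⟩
  intro x hx
  obtain ⟨q, hq⟩ : ∃ q : ℝ, q = Real.exp (-(x ^ 2 / (16 * β ^ 2 * Fintype.card E))) := ⟨_, rfl⟩
  rw [← hq]
  have hq0 : 0 < q := by rw [hq]; exact Real.exp_pos _
  have hex1 : 1 ≤ Real.exp x := Real.one_le_exp hx
  have hexp : 0 < Real.exp x := Real.exp_pos _
  -- upper tail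
  have hup : prob {J : E → Bool | MixGe (weight a b β J) (t0 * Real.exp x * (3 * K))} ≤ 2 * q := by
    have h1 := hCLO V E a b β K (t0 : ℝ) (t0 * Real.exp x * (3 * K)) hβ ht0R hK (by
      have : 3 * K * (t0 : ℝ) * 1 ≤ 3 * K * (t0 : ℝ) * Real.exp x :=
        mul_le_mul_of_nonneg_left hex1 (by positivity)
      linarith)
    have h2 : (t0 : ℝ) * Real.exp x * (3 * K) / (3 * K * (t0 : ℝ)) = Real.exp x := by
      field_simp
    rw [h2, Real.log_exp, ← hq] at h1
    have h3 : 1 / 2 ≤ prob {J : E → Bool | ∃ t : ℕ, (t : ℝ) ≤ (t0 : ℝ) ∧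
        Mixed (weight a b β J) t} := by
      refine ht0.trans (prob_mono ?_)
      rintro J ⟨u, hu, hm⟩
      exact ⟨u, by exact_mod_cast hu, hm⟩
    have h4 := mul_le_mul_of_nonneg_right h3
      (prob_nonneg {J : E → Bool | MixGe (weight a b β J) (t0 * Real.exp x * (3 * K))})
    linarith
  -- lower tail
  have hlow : prob {J : E → Bool | ¬ MixGe (weight a b β J) (t0 * Real.exp (-x) / (3 * K))} ≤
      2 * q := by
    obtain ⟨S, hS⟩ : ∃ S : ℝ, S = t0 * Real.exp (-x) / (3 * K) := ⟨_, rfl⟩
    rw [← hS]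
    rcases lt_or_ge S 1 with h | h
    · have h1 : {J : E → Bool | ¬ MixGe (weight a b β J) S} = ∅ := by
        refine Set.eq_empty_of_forall_notMem fun J hJ => hJ ?_
        intro t ht
        have h2 := hone J t ht
        have h3 : (1 : ℝ) ≤ t := by exact_mod_cast h2
        linarith
      rw [h1, prob_empty]
      linarith
    · have hS0 : 0 < S := by linarith
      have h0 : 3 * K * S = t0 * Real.exp (-x) := by
        rw [hS]
        field_simp
      have hex2 : Real.exp (-x) ≤ 1 := by
        rw [Real.exp_le_one_iff]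
        linarith
      have h1 := hCLO V E a b β K S (t0 : ℝ) hβ h hK (by
        rw [h0]
        have := mul_le_mul_of_nonneg_left hex2 ht0p.le
        linarith)
      have h2 : (t0 : ℝ) / (3 * K * S) = Real.exp x := by
        rw [h0, Real.exp_neg]
        field_simp
      rw [h2, Real.log_exp, ← hq] at h1
      have h3 : prob {J : E → Bool | ¬ MixGe (weight a b β J) S} ≤
          prob {J : E → Bool | ∃ t : ℕ, (t : ℝ) ≤ S ∧ Mixed (weight a b β J) t} := by
        refine prob_mono ?_
        intro J hJ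
        have hJ' : ¬ MixGe (weight a b β J) S := hJ
        unfold MixGe at hJ'
        push Not at hJ'
        obtain ⟨t, ht, htl⟩ := hJ'
        exact ⟨t, htl.le, ht⟩
      have h4 := mul_le_mul_of_nonneg_left hge
        (prob_nonneg {J : E → Bool | ∃ t : ℕ, (t : ℝ) ≤ S ∧ Mixed (weight a b β J) t})
      linarith
  have hfinal := prob_ge_of_compl
    (A := {J : E → Bool | MixGe (weight a b β J) (t0 * Real.exp (-x) / (3 * K)) ∧
        ¬ MixGe (weight a b β J) (t0 * Real.exp x * (3 * K))})
    (B := {J : E → Bool | ¬ MixGe (weight a b β J) (t0 * Real.exp (-x) / (3 * K))} ∪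
      {J : E → Bool | MixGe (weight a b β J) (t0 * Real.exp x * (3 * K))}) (by
      intro J hJ
      by_cases h1 : MixGe (weight a b β J) (t0 * Real.exp (-x) / (3 * K))
      · right
        by_contra h2
        exact hJ ⟨h1, h2⟩
      · exact Or.inl h1)
  have hun := prob_union
    {J : E → Bool | ¬ MixGe (weight a b β J) (t0 * Real.exp (-x) / (3 * K))}
    {J : E → Bool | MixGe (weight a b β J) (t0 * Real.exp x * (3 * K))}
  linarith

end Pool.Agent.SGZ
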