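import Pool.Agent.SGZ.St2

/-! Self-averaging of the mixing time of the spin glass, module TOM: the torus. -/

set_option autoImplicit false

namespace Pool.Agent.SGZ

open Finset Filter Topology

namespace MTOM

theorem card_TV (d n : ℕ) : Fintype.card (TV d n) = (n + 3) ^ d := by
  simp [TV, ZMod.card]

theorem card_TE (d n : ℕ) : Fintype.card (TE d n) = (n + 3) ^ d * d := by
  simp [TE, TV, ZMod.card]

theorem mixGe_anti {V : Type*} [Fintype V] [DecidableEq V] (w : (V → Bool) → ℝ) {A A' : ℝ}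
    (h : A' ≤ A) (hA : MixGe w A) : MixGe w A' := fun t ht => h.trans (hA t ht)

theorem prob_mono {E : Type*} [Fintype E] {A B : Set (E → Bool)} (h : A ⊆ B) :
    prob A ≤ prob B := by
  classical
  unfold prob
  refine div_le_div_of_nonneg_right ?_ (by positivity)
  exact_mod_cast Set.ncard_le_ncard h (Set.toFinite _)

theorem prob_between_mono {V E : Type*} [Fintype V] [DecidableEq V] [Fintype E]
    (W : (E → Bool) → (V → Bool) → ℝ) {A A' B B' : ℝ} (hA : A' ≤ A) (hB : B ≤ B') :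
    prob {J : E → Bool | MixGe (W J) A ∧ ¬ MixGe (W J) B} ≤
      prob {J : E → Bool | MixGe (W J) A' ∧ ¬ MixGe (W J) B'} :=
  prob_mono fun _ hJ => ⟨mixGe_anti _ hA hJ.1, fun h => hJ.2 (mixGe_anti _ hB h)⟩

theorem part1 (hMED : S_MED) (d : ℕ) (β : ℝ) (hd : 1 ≤ d) (hβ : 0 < β) (n : ℕ) :
    ∃ t0 : ℕ, 1 ≤ t0 ∧ ∀ x : ℝ, 0 ≤ x →
      1 - 4 * Real.exp (-(x ^ 2 / (16 * β ^ 2 * d * (n + 3 : ℝ) ^ d))) ≤
        probBetween d n β (t0 * Real.exp (-x) / (3 * ((2 * β * d + 3) * (n + 3 : ℝ) ^ d)))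
          (t0 * Real.exp x * (3 * ((2 * β * d + 3) * (n + 3 : ℝ) ^ d))) := by
  have hdr : (1 : ℝ) ≤ d := by exact_mod_cast hd
  have hs1 : (1 : ℝ) ≤ (n : ℝ) + 3 := by linarith [(Nat.cast_nonneg n : (0 : ℝ) ≤ n)]
  have hN1 : (1 : ℝ) ≤ ((n : ℝ) + 3) ^ d := one_le_pow₀ hs1
  set N : ℝ := ((n : ℝ) + 3) ^ d with hN
  have hcV : ((Fintype.card (TV d n) : ℕ) : ℝ) = N := by
    rw [card_TV]
    push_cast
    rfl
  have hcE : ((Fintype.card (TE d n) : ℕ) : ℝ) = N * d := by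
    rw [card_TE]
    push_cast
    rfl
  set K : ℝ := 2 * β * Fintype.card (TE d n) + Fintype.card (TV d n) + 2 with hK
  have hKle : K ≤ (2 * β * d + 3) * N := by
    rw [hK, hcE, hcV]
    nlinarith
  have hKpos : 0 < K := by
    rw [hK, hcE, hcV]
    positivity
  obtain ⟨t0, ht0, hx0⟩ := hMED (TV d n) (TE d n) (src d n) (tgt d n) β K hβ hK
  refine ⟨t0, ht0, fun x hx => ?_⟩
  have h1 := hx0 x hx
  have hden : 16 * β ^ 2 * (Fintype.card (TE d n) : ℝ) = 16 * β ^ 2 * d * N := by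
    rw [hcE]
    ring
  rw [hden] at h1
  refine h1.trans ?_
  unfold probBetween
  have ht0r : (0 : ℝ) ≤ t0 := Nat.cast_nonneg _
  have e1 : (t0 : ℝ) * Real.exp (-x) / (3 * ((2 * β * d + 3) * N)) ≤
      t0 * Real.exp (-x) / (3 * K) := by
    have : 0 ≤ (t0 : ℝ) * Real.exp (-x) := by positivity
    gcongr
  have e2 : (t0 : ℝ) * Real.exp x * (3 * K) ≤
      t0 * Real.exp x * (3 * ((2 * β * d + 3) * N)) := by
    have : 0 ≤ (t0 : ℝ) * Real.exp x := by positivity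
    gcongr
  exact prob_between_mono (fun J => weight (src d n) (tgt d n) β J) e1 e2

theorem tendsto_side : Tendsto (fun n : ℕ => ((n : ℝ) + 3)) atTop atTop :=
  tendsto_atTop_add_const_right _ _ tendsto_natCast_atTop_atTop

theorem part2 (d : ℕ) (β : ℝ) (hd : 1 ≤ d) (hβ : 0 < β) (M : ℕ → ℕ)
    (hM : ∀ (n : ℕ) (x : ℝ), 0 ≤ x →
      1 - 4 * Real.exp (-(x ^ 2 / (16 * β ^ 2 * d * (n + 3 : ℝ) ^ d))) ≤
        probBetween d n β (M n * Real.exp (-x) / (3 * ((2 * β * d + 3) * (n + 3 : ℝ) ^ d)))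
          (M n * Real.exp x * (3 * ((2 * β * d + 3) * (n + 3 : ℝ) ^ d))))
    (ε δ : ℝ) (hε' : (d : ℝ) / 2 < ε) (hδ : δ < 2 * ε - d) : ∀ᶠ n : ℕ in atTop,
    1 - Real.exp (-(n + 3 : ℝ) ^ δ) ≤
      probBetween d n β (M n * Real.exp (-(n + 3 : ℝ) ^ ε)) (M n * Real.exp ((n + 3 : ℝ) ^ ε)) := by
  have hdr : (1 : ℝ) ≤ d := by exact_mod_cast hd
  have hdpos : (0 : ℝ) < d := by linarith
  have hε : 0 < ε := by linarith
  set C : ℝ := 3 * (2 * β * d + 3) with hC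
  have hCpos : 0 < C := by positivity
  -- the logarithm of `3 K`
  have e1 : ∀ᶠ n : ℕ in atTop, Real.log C ≤ ((n : ℝ) + 3) ^ ε / 4 := by
    have h1 : Tendsto (fun n : ℕ => ((n : ℝ) + 3) ^ ε) atTop atTop :=
      (tendsto_rpow_atTop hε).comp tendsto_side
    filter_upwards [h1.eventually_ge_atTop (4 * Real.log C)] with n hn
    linarith
  have e2 : ∀ᶠ n : ℕ in atTop, (d : ℝ) * Real.log ((n : ℝ) + 3) ≤ ((n : ℝ) + 3) ^ ε / 4 := by
    have h1 := (isLittleO_log_rpow_atTop hε).def (show (0 : ℝ) < 1 / (4 * d) by positivity)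
    have h2 := tendsto_side.eventually h1
    filter_upwards [h2] with n hn
    have hp : (1 : ℝ) ≤ (n : ℝ) + 3 := by linarith [(Nat.cast_nonneg n : (0 : ℝ) ≤ n)]
    rw [Real.norm_of_nonneg (Real.log_nonneg hp),
      Real.norm_of_nonneg (Real.rpow_nonneg (by linarith) _)] at hn
    calc (d : ℝ) * Real.log ((n : ℝ) + 3) ≤ d * (1 / (4 * d) * ((n : ℝ) + 3) ^ ε) := by gcongr
      _ = ((n : ℝ) + 3) ^ ε / 4 := by
          field_simp
  have e3 : ∀ᶠ n : ℕ in atTop, 128 * β ^ 2 * d ≤ ((n : ℝ) + 3) ^ (2 * ε - d - δ) := by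
    have h1 : Tendsto (fun n : ℕ => ((n : ℝ) + 3) ^ (2 * ε - d - δ)) atTop atTop :=
      (tendsto_rpow_atTop (by linarith)).comp tendsto_side
    exact h1.eventually_ge_atTop _
  have e4 : ∀ᶠ n : ℕ in atTop, 128 * β ^ 2 * d * Real.log 4 ≤ ((n : ℝ) + 3) ^ (2 * ε - d) := by
    have h1 : Tendsto (fun n : ℕ => ((n : ℝ) + 3) ^ (2 * ε - d)) atTop atTop :=
      (tendsto_rpow_atTop (by linarith)).comp tendsto_side
    exact h1.eventually_ge_atTop _
  filter_upwards [e1, e2, e3, e4] with n h1 h2 h3 h4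
  have hsp : (0 : ℝ) < (n : ℝ) + 3 := by positivity
  have h0 := hM n (((n : ℝ) + 3) ^ ε / 2) (by positivity)
  set s : ℝ := (n : ℝ) + 3 with hs
  have hsε : 0 < s ^ ε := Real.rpow_pos_of_pos hsp ε
  have hsδ : 0 < s ^ δ := Real.rpow_pos_of_pos hsp δ
  have hN : 0 < s ^ d := by positivity
  have hlogK : Real.log (3 * ((2 * β * d + 3) * s ^ d)) ≤ s ^ ε / 2 := by
    have h4 : 3 * ((2 * β * d + 3) * s ^ d) = C * s ^ d := by rw [hC]; ring
    rw [h4, Real.log_mul hCpos.ne' hN.ne', Real.log_pow]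
    linarith
  have hKpos : 0 < 3 * ((2 * β * d + 3) * s ^ d) := by positivity
  have hKle : 3 * ((2 * β * d + 3) * s ^ d) ≤ Real.exp (s ^ ε / 2) :=
    (Real.log_le_iff_le_exp hKpos).1 hlogK
  have hMr : (0 : ℝ) ≤ (M n : ℝ) := Nat.cast_nonneg _
  have b1 : (M n : ℝ) * Real.exp (-s ^ ε) ≤
      M n * Real.exp (-(s ^ ε / 2)) / (3 * ((2 * β * d + 3) * s ^ d)) := by
    rw [le_div_iff₀ hKpos, mul_assoc]
    refine mul_le_mul_of_nonneg_left ?_ hMr
    calc Real.exp (-s ^ ε) * (3 * ((2 * β * d + 3) * s ^ d)) ≤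
        Real.exp (-s ^ ε) * Real.exp (s ^ ε / 2) :=
          mul_le_mul_of_nonneg_left hKle (Real.exp_pos _).le
      _ = Real.exp (-(s ^ ε / 2)) := by
          rw [← Real.exp_add]
          congr 1
          ring
  have b2 : (M n : ℝ) * Real.exp (s ^ ε / 2) * (3 * ((2 * β * d + 3) * s ^ d)) ≤
      M n * Real.exp (s ^ ε) := by
    rw [mul_assoc]
    refine mul_le_mul_of_nonneg_left ?_ hMr
    calc Real.exp (s ^ ε / 2) * (3 * ((2 * β * d + 3) * s ^ d)) ≤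
        Real.exp (s ^ ε / 2) * Real.exp (s ^ ε / 2) :=
          mul_le_mul_of_nonneg_left hKle (Real.exp_pos _).le
      _ = Real.exp (s ^ ε) := by
          rw [← Real.exp_add]
          congr 1
          ring
  have b3 : 4 * Real.exp (-((s ^ ε / 2) ^ 2 / (16 * β ^ 2 * d * s ^ d))) ≤ Real.exp (-s ^ δ) := by
    have h7 : (s ^ ε) ^ 2 = s ^ (2 * ε - d) * s ^ d := by
      rw [← Real.rpow_natCast s d, ← Real.rpow_add hsp, ← Real.rpow_natCast,
        ← Real.rpow_mul hsp.le]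
      congr 1
      push_cast
      ring
    have h8 : (s ^ ε / 2) ^ 2 / (16 * β ^ 2 * d * s ^ d) = s ^ (2 * ε - d) / (64 * β ^ 2 * d) := by
      rw [div_pow, h7]
      field_simp
      ring
    have h9 : s ^ (2 * ε - d) = s ^ (2 * ε - d - δ) * s ^ δ := by
      rw [← Real.rpow_add hsp]
      congr 1
      ring
    have h10 : 128 * β ^ 2 * d * s ^ δ ≤ s ^ (2 * ε - d) := by
      rw [h9]
      exact mul_le_mul_of_nonneg_right h3 hsδ.le
    have h11 : Real.log 4 + s ^ δ ≤ s ^ (2 * ε - d) / (64 * β ^ 2 * d) := by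
      rw [le_div_iff₀ (by positivity)]
      nlinarith
    rw [h8]
    have h12 : (4 : ℝ) = Real.exp (Real.log 4) := (Real.exp_log (by norm_num)).symm
    calc 4 * Real.exp (-(s ^ (2 * ε - d) / (64 * β ^ 2 * d))) =
        Real.exp (Real.log 4) * Real.exp (-(s ^ (2 * ε - d) / (64 * β ^ 2 * d))) := by
          rw [← h12]
      _ = Real.exp (Real.log 4 + -(s ^ (2 * ε - d) / (64 * β ^ 2 * d))) := by
          rw [← Real.exp_add]
      _ ≤ Real.exp (-s ^ δ) := Real.exp_le_exp.2 (by linarith)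
  have b4 : probBetween d n β
      (M n * Real.exp (-(s ^ ε / 2)) / (3 * ((2 * β * d + 3) * s ^ d)))
      (M n * Real.exp (s ^ ε / 2) * (3 * ((2 * β * d + 3) * s ^ d))) ≤
      probBetween d n β (M n * Real.exp (-s ^ ε)) (M n * Real.exp (s ^ ε)) :=
    prob_between_mono (fun J => weight (src d n) (tgt d n) β J) b1 b2
  linarith

end MTOM

theorem t_TOM (hMED : S_MED) : S_TOM := by
  intro d β hd hβ
  choose M hM1 hM2 using MTOM.part1 hMED d β hd hβ
  exact ⟨M, hM1, hM2, fun ε δ hε hδ => MTOM.part2 d β hd hβ M hM2 ε δ hε hδ⟩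

end Pool.Agent.SGZ
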