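import Pool.Agent.SGZ.St2
import Pool.Agent.SGZ.Fin0

set_option autoImplicit false

/-! Zero-one law for slow mixing of the spin glass: the zero side. -/

namespace Pool.Agent.SGZ

open Finset Filter Topology

namespace MZER

theorem prob_nonneg {E : Type*} [Fintype E] (A : Set (E → Bool)) : 0 ≤ prob A := by
  unfold prob
  positivity

end MZER

theorem t_ZER (hTOR : S_TOR) : S_ZER := by
  intro d β ε ε' δ hd hβ hε hδ hεε h
  have hdpos : (0 : ℝ) < d := by exact_mod_cast hd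
  have hεpos : 0 < ε := lt_trans (by positivity) hε
  obtain ⟨δ', hδ1, hδ0, hδ2⟩ : ∃ δ' : ℝ, δ < δ' ∧ 0 < δ' ∧ δ' < 2 * ε - d := by
    have h1 : max δ 0 < 2 * ε - d := max_lt hδ (by linarith)
    have h2 : δ ≤ max δ 0 := le_max_left _ _
    have h3 : 0 ≤ max δ 0 := le_max_right _ _
    exact ⟨(max δ 0 + (2 * ε - d)) / 2, by linarith, by linarith, by linarith⟩
  obtain ⟨n0, hn0⟩ := hTOR.2 d β ε δ' hd hβ hεpos hε hδ2
  have e2 : ∀ᶠ n : ℕ in atTop, ((n : ℝ) + 3) ^ ε + ((n : ℝ) + 3) ^ ε ≤ ((n : ℝ) + 3) ^ ε' := by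
    have hpow : Tendsto (fun n : ℕ => ((n : ℝ) + 3) ^ (ε' - ε)) atTop atTop :=
      (tendsto_rpow_atTop (by linarith)).comp tendsto_side
    filter_upwards [hpow.eventually_ge_atTop 2] with n hn
    have hp : (0 : ℝ) < (n : ℝ) + 3 := by positivity
    have : ((n : ℝ) + 3) ^ ε' = ((n : ℝ) + 3) ^ ε * ((n : ℝ) + 3) ^ (ε' - ε) := by
      rw [← Real.rpow_add hp]; congr 1; ring
    rw [this]
    nlinarith [Real.rpow_pos_of_pos hp ε]
  have e3 : Tendsto (fun n : ℕ => Real.exp (-((n : ℝ) + 3) ^ δ')) atTop (𝓝 0) := by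
    have h5 : Tendsto (fun n : ℕ => ((n : ℝ) + 3) ^ δ') atTop atTop :=
      (tendsto_rpow_atTop hδ0).comp tendsto_side
    exact Real.tendsto_exp_neg_atTop_nhds_zero.comp h5
  refine tendsto_of_tendsto_of_tendsto_of_le_of_le' tendsto_const_nhds e3
    (Eventually.of_forall fun n => MZER.prob_nonneg _) ?_
  filter_upwards [e2, h, eventually_ge_atTop n0] with n hb hc hn
  have hp : (0 : ℝ) < (n : ℝ) + 3 := by positivity
  have hp1 : (1 : ℝ) < (n : ℝ) + 3 := by linarith [(Nat.cast_nonneg n : (0 : ℝ) ≤ n)]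
  have hE := Real.rpow_pos_of_pos hp ε
  rcases hn0 n hn (((n : ℝ) + 3) ^ ε) hE.le with h8 | h8
  · exact (probMixGe_anti d n β (Real.exp_le_exp.2 hb)).trans h8.le
  · exfalso
    have h9 : Real.exp (-((n : ℝ) + 3) ^ δ') < Real.exp (-((n : ℝ) + 3) ^ δ) := by
      refine Real.exp_lt_exp.2 (neg_lt_neg ?_)
      exact Real.rpow_lt_rpow_of_exponent_lt hp1 hδ1
    linarith

end Pool.Agent.SGZ
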