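import Pool.Agent.SGZ.St

/-!
# Self-averaging of the mixing time of the `±1` spin glass: statements, part 2

Every `S_xxx` is a module `SGZ_xxx`: file `Pool/Agent/SGZ/M<xxx>.lean`, theorem
`Pool.Agent.SGZ.t_xxx (hypotheses named) : S_xxx`. The theorems of `St.lean` are proved (`t_PRJ`, `t_UPP`,
`t_LOW`, `t_CMP`, `t_HAM`, `t_GEN`, `t_TOR`; files `MPRJ.lean` and so on).
-/

namespace Pool.Agent.SGZ

open Finset Filter Topology

/-- FIN. The mixing time is finite. Hypothesis UPP (`t_UPP t_PRJ`).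
Proof. Let `D = ∑_v ∑_σ (f (up σ v) - f (dn σ v))²`. Changing one coordinate changes `f` by at most `√D`; so by induction
over a `Finset` of coordinates `|f σ - f τ| ≤ N √D` for all `σ τ` (`N = card V`), `(f σ - f τ)² ≤ N² D`. Take `c = f σ0`:
`∑ w (f - c)² ≤ W N² D`, `W = ∑ w`. Let `a > 0` be the minimum of `w₊ w₋/(w₊ + w₋)` over all `v σ` (finitely many;
`Finset.exists_min_image`, or `∃ a > 0` by `Finite`): `dir w f ≥ a D/(2N)`. So `Gap w g` with `g = a/(2 N³ W) > 0`. Then UPP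
with `K` large (`K - 2 = max_σ log (W/w σ)`, or `K = 2 + ∑_σ W/w σ`, as `x ≤ exp x`) and `t = ⌈K/g⌉₊`. -/
def S_FIN : Prop := ∀ (V : Type) [Fintype V] [DecidableEq V] [Nonempty V] (w : (V → Bool) → ℝ),
  (∀ σ, 0 < w σ) → ∃ t : ℕ, Mixed w t

/-- CLO. The law of GEN with the closed event `t_mix ≤ S`. Hypotheses UPP, LOW, CMP, HAM.
Proof: that of GEN (`MGEN.lean`), which uses only `t ≤ S` (and `not_mixed_zero`). -/
def S_CLO : Prop := ∀ (V E : Type) [Fintype V] [DecidableEq V] [Nonempty V] [Fintype E] [DecidableEq E]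
  (a b : E → V) (β K S T : ℝ), 0 < β → 1 ≤ S → K = 2 * β * Fintype.card E + Fintype.card V + 2 →
  3 * K * S ≤ T →
  prob {J : E → Bool | ∃ t : ℕ, (t : ℝ) ≤ S ∧ Mixed (weight a b β J) t} *
    prob {J : E → Bool | MixGe (weight a b β J) T} ≤
    Real.exp (-(Real.log (T / (3 * K * S)) ^ 2 / (16 * β ^ 2 * Fintype.card E)))

/-- MED. Concentration about a median `t0` of the mixing time, every finite graph. Hypotheses FIN, CLO.
Proof. `t0` = the least natural `t` with `prob {J | ∃ u ≤ t, Mixed u} ≥ 1/2` (`Nat.find`; it exists: by FIN there is a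
`t` which works for all the finitely many `J`). `t0 ≥ 1` (`MGEN.not_mixed_zero`), and
`prob {J | MixGe (w J) t0} ≥ 1/2` (the complement of `{∃ u ≤ t0 - 1, Mixed u}`, which has probability `< 1/2`).
Upper tail: CLO with `S = t0`, `T = t0 * exp x * (3K)`: `T/(3KS) = exp x`, so `prob {MixGe T} ≤ 2 exp (-x²/(16 β² m))`.
Lower tail: `S = t0 * exp (-x)/(3K)`, `T = t0`. If `S < 1` then `MixGe (w J) S` for all `J` (`t ≥ 1` if `Mixed t`).
Otherwise CLO (or GEN) gives `prob {¬ MixGe S} ≤ 2 exp (-x²/(16 β² m))` (`¬ MixGe S` gives a mixed `t < S`). The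
complement of the event is the union of the two. (`prob` is monotone, additive; `m = 0`: trivial as `1 - 4 < 0`.) -/
def S_MED : Prop := ∀ (V E : Type) [Fintype V] [DecidableEq V] [Nonempty V] [Fintype E] [DecidableEq E]
  (a b : E → V) (β K : ℝ), 0 < β → K = 2 * β * Fintype.card E + Fintype.card V + 2 →
  ∃ t0 : ℕ, 1 ≤ t0 ∧ ∀ x : ℝ, 0 ≤ x →
    1 - 4 * Real.exp (-(x ^ 2 / (16 * β ^ 2 * Fintype.card E))) ≤
      prob {J : E → Bool | MixGe (weight a b β J) (t0 * Real.exp (-x) / (3 * K)) ∧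
        ¬ MixGe (weight a b β J) (t0 * Real.exp x * (3 * K))}

/-- `P_J (A ≤ t_mix < B)` on the torus of side `n + 3` -/
noncomputable def probBetween (d n : ℕ) (β A B : ℝ) : ℝ :=
  prob {J : TE d n → Bool | MixGe (weight (src d n) (tgt d n) β J) A ∧
    ¬ MixGe (weight (src d n) (tgt d n) β J) B}

/-- TOM. The torus. Hypothesis MED. `s = n + 3`. (1) MED with `card V = s^d`, `card E = d s^d`,
`2 β d s^d + s^d + 2 ≤ (2 β d + 3) s^d =: K` (the event grows with `K`). (2): `x = s^ε/2`: for large `n`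
`log (3K) ≤ s^ε/2`, so `exp (-s^ε) ≤ exp (-x)/(3K)` and `exp x * (3K) ≤ exp (s^ε)`, and
`4 exp (-s^(2ε)/(64 β² d s^d)) ≤ exp (-s^δ)` for large `n` (as in `MTOR.lean`; `δ` may be negative or zero: then `s^δ ≤ 1`).
Choose `M` first (`choose`/`Classical.choose` from (1)), then all the `ε δ`. -/
def S_TOM : Prop := ∀ (d : ℕ) (β : ℝ), 1 ≤ d → 0 < β → ∃ M : ℕ → ℕ, (∀ n, 1 ≤ M n) ∧
  (∀ (n : ℕ) (x : ℝ), 0 ≤ x →
    1 - 4 * Real.exp (-(x ^ 2 / (16 * β ^ 2 * d * (n + 3 : ℝ) ^ d))) ≤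
      probBetween d n β (M n * Real.exp (-x) / (3 * ((2 * β * d + 3) * (n + 3 : ℝ) ^ d)))
        (M n * Real.exp x * (3 * ((2 * β * d + 3) * (n + 3 : ℝ) ^ d)))) ∧
  (∀ ε δ : ℝ, (d : ℝ) / 2 < ε → δ < 2 * ε - d → ∀ᶠ n : ℕ in atTop,
    1 - Real.exp (-(n + 3 : ℝ) ^ δ) ≤
      probBetween d n β (M n * Real.exp (-(n + 3 : ℝ) ^ ε)) (M n * Real.exp ((n + 3 : ℝ) ^ ε)))

/-- EQV. The exponents of slow mixing above `d/2` are those of the deterministic sequence `M`. No hypothesis.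
Proof. `(⇐)` Let `ε' < ε`; take `d/2 < ε₂ < ε₁ < ε` with `ε' < ε₁`; for large `n` `exp (s^ε₁) ≤ M n`, and with
probability `≥ 1 - exp (-s^δ)` (some `0 < δ < 2 ε₂ - d`) `t_mix ≥ M exp (-s^ε₂) ≥ exp (s^ε₁ - s^ε₂) ≥ exp (s^ε')`; the
probability is `≤ 1`, squeeze. `(⇒)` Let `ε' < ε`; the same `ε₁ ε₂`: for large `n` `P (t_mix ≥ exp (s^ε₁)) > 1/2` and
`P (t_mix < M exp (s^ε₂)) > 1/2`, so some `J` has both: `exp (s^ε₁) ≤ M exp (s^ε₂)` (`MixGe A` and `¬ MixGe B` give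
`A < B`), so `M ≥ exp (s^ε₁ - s^ε₂) ≥ exp (s^ε')`. See `Fin0.lean` for `prob_le_one`, `probMixGe_anti` and the
comparison of powers. -/
def S_EQV : Prop := ∀ (d : ℕ) (β : ℝ) (M : ℕ → ℕ), 1 ≤ d → 0 < β →
  (∀ ε δ : ℝ, (d : ℝ) / 2 < ε → δ < 2 * ε - d → ∀ᶠ n : ℕ in atTop,
    1 - Real.exp (-(n + 3 : ℝ) ^ δ) ≤
      probBetween d n β (M n * Real.exp (-(n + 3 : ℝ) ^ ε)) (M n * Real.exp ((n + 3 : ℝ) ^ ε))) →
  ∀ ε : ℝ, (d : ℝ) / 2 < ε →
    ((∀ ε' : ℝ, ε' < ε → Tendsto (fun n : ℕ => probMixGe d n β (Real.exp ((n + 3 : ℝ) ^ ε'))) atTop (𝓝 1)) ↔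
      ∀ ε' : ℝ, ε' < ε → ∀ᶠ n : ℕ in atTop, Real.exp ((n + 3 : ℝ) ^ ε') ≤ M n)

/-- ZER. The zero side of the zero-one law. Hypothesis TOR (`t_TOR`).
Proof. As `lim_one` in `Fin0.lean`. Take `δ' ≥ δ`, `0 < δ' < 2ε - d`, and `δ' > δ` strictly (`δ' = max` of something
strictly larger than `δ`); `x = s^ε` in TOR.2 with `ε`, `δ'`: the second alternative
`P (t_mix ≥ exp (s^ε)) ≥ 1 - exp (-s^δ')` is excluded for large `n` as `1 - P ≥ exp (-s^δ) > exp (-s^δ')`. So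
`P (t_mix ≥ exp (2 s^ε)) < exp (-s^δ') → 0`, and `2 s^ε ≤ s^ε'` for large `n`; squeeze with `0`. -/
def S_ZER : Prop := ∀ (d : ℕ) (β ε ε' δ : ℝ), 1 ≤ d → 0 < β → (d : ℝ) / 2 < ε → δ < 2 * ε - d → ε < ε' →
  (∀ᶠ n : ℕ in atTop, Real.exp (-(n + 3 : ℝ) ^ δ) ≤ 1 - probMixGe d n β (Real.exp ((n + 3 : ℝ) ^ ε))) →
  Tendsto (fun n : ℕ => probMixGe d n β (Real.exp ((n + 3 : ℝ) ^ ε'))) atTop (𝓝 0)

end Pool.Agent.SGZ
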