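import Pool.Agent.SGZ.Fin
import Pool.Agent.SGZ.St2
import Pool.Agent.SGZ.MFIN
import Pool.Agent.SGZ.MCLO
import Pool.Agent.SGZ.MMED
import Pool.Agent.SGZ.MTOM
import Pool.Agent.SGZ.MEQV
import Pool.Agent.SGZ.MZER

/-! Self-averaging of the mixing time of the spin glass: composition of the modules of part 2. -/

namespace Pool.Agent.SGZ

theorem med_all : S_MED := t_MED (t_FIN (t_UPP t_PRJ)) (t_CLO (t_UPP t_PRJ) (t_LOW t_PRJ) t_CMP t_HAM)

theorem tom_all : S_TOM := t_TOM med_all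

end Pool.Agent.SGZ
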