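import Pool.Agent.SGZ.MGEN

/-!
# SGZ: the deterministic step
-/

set_option autoImplicit false
set_option linter.unusedSectionVars false

namespace Pool.Agent.SGZ

open Finset

section

variable {V E : Type} [Fintype V] [DecidableEq V] [Fintype E] [DecidableEq E]

/-- changing `D0` couplings changes the mixing time at most by the factor `3 K exp (4 β D0)` -/
theorem det_step (hUPP : S_UPP) (hLOW : S_LOW) (hCMP : S_CMP) [Nonempty V]
    (a b : E → V) {β K S T : ℝ} (hβ : 0 < β) (hS : 1 ≤ S)
    (hK : K = 2 * β * Fintype.card E + Fintype.card V + 2)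
    (J J' : E → Bool) (hJ : ¬ MixGe (weight a b β J) S) (hJ' : MixGe (weight a b β J') T) :
    T ≤ 3 * K * S * Real.exp (4 * β * (hammingDist J J' : ℝ)) := by
  have hK2 : 2 ≤ K := by
    rw [hK]
    have h1 : 0 ≤ 2 * β * (Fintype.card E : ℝ) := by positivity
    have h2 : (0 : ℝ) ≤ Fintype.card V := by positivity
    linarith
  have hKS : 0 < 3 * K * S := by positivity
  have he : 1 ≤ Real.exp (4 * β * (hammingDist J J' : ℝ)) := Real.one_le_exp (by positivity)
  rcases le_or_gt (3 * K * S) T with hT | hT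
  · have h1 := MGEN.dist_le hUPP hLOW hCMP a b hβ hS hK hT J J' hJ hJ'
    have hT0 : 0 < T := lt_of_lt_of_le hKS hT
    rw [div_le_iff₀ (by positivity)] at h1
    have h2 : Real.log (T / (3 * K * S)) ≤ 4 * β * (hammingDist J J' : ℝ) := by linarith
    rw [Real.log_le_iff_le_exp (div_pos hT0 hKS), div_le_iff₀ hKS] at h2
    linarith
  · have h3 := mul_le_mul_of_nonneg_left he hKS.le
    linarith

/-- the same, in the other direction -/
theorem det_step' (hUPP : S_UPP) (hLOW : S_LOW) (hCMP : S_CMP) [Nonempty V]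
    (a b : E → V) {β K S T : ℝ} (hβ : 0 < β) (hS : 1 ≤ S)
    (hK : K = 2 * β * Fintype.card E + Fintype.card V + 2)
    (J J' : E → Bool) (hJ' : MixGe (weight a b β J') T)
    (hT : 3 * K * S * Real.exp (4 * β * (hammingDist J J' : ℝ)) < T) :
    MixGe (weight a b β J) S := by
  by_contra hJ
  exact absurd (det_step hUPP hLOW hCMP a b hβ hS hK J J' hJ hJ') (not_le.2 hT)

end

end Pool.Agent.SGZ
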