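import Pool.Agent.SGZ.Defs

/-!
# Zero-one law for slow mixing of the `±1` spin glass: statements

Every `S_xxx` is a module `SGZ_xxx`: file `Pool/Agent/SGZ/M<xxx>.lean`, theorem
`Pool.Agent.SGZ.t_xxx (hypotheses named) : S_xxx`.
-/

namespace Pool.Agent.SGZ

open Finset

section

variable {V : Type*} [Fintype V] [DecidableEq V]

/-- the two configurations which agree with `σ` off `v` -/
def up (σ : V → Bool) (v : V) : V → Bool := Function.update σ v true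
def dn (σ : V → Bool) (v : V) : V → Bool := Function.update σ v false

/-- the heat bath at `v`, as an operator on functions -/
noncomputable def Pv (w : (V → Bool) → ℝ) (v : V) (f : (V → Bool) → ℝ) (σ : V → Bool) : ℝ :=
  (w (up σ v) * f (up σ v) + w (dn σ v) * f (dn σ v)) / (w (up σ v) + w (dn σ v))

/-- the transition operator -/
noncomputable def Pf (w : (V → Bool) → ℝ) (f : (V → Bool) → ℝ) (σ : V → Bool) : ℝ :=
  (Fintype.card V : ℝ)⁻¹ * ∑ v, Pv w v f σ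

/-- the (unnormalised) inner product -/
noncomputable def ip (w f g : (V → Bool) → ℝ) : ℝ := ∑ σ, w σ * f σ * g σ

/-- the Dirichlet form, `⟨(I - P) f, f⟩` (unnormalised) -/
noncomputable def dir (w f : (V → Bool) → ℝ) : ℝ :=
  (Fintype.card V : ℝ)⁻¹ * ∑ v, ∑ σ, (1 / 2) * (w (up σ v) * w (dn σ v) / (w (up σ v) + w (dn σ v))) *
    (f (up σ v) - f (dn σ v)) ^ 2

/-- a spectral gap at least `g`: `g ∑ w (f - c)² ≤ dir f` for some constant `c` (the mean of `f`) -/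
def Gap (w : (V → Bool) → ℝ) (g : ℝ) : Prop :=
  ∀ f : (V → Bool) → ℝ, ∃ c : ℝ, g * ∑ σ, w σ * (f σ - c) ^ 2 ≤ dir w f

end

/-- PRJ. Facts on the operator, `w > 0`, `V` nonempty. (1) `glauber w` acts as `Pf`; (2) `Pf` is symmetric; (3)
`⟨f, f⟩ - ⟨P f, f⟩ = dir f`; (4) `⟨P f, P f⟩ ≤ ⟨P f, f⟩`; (5) `0 ≤ dir f`; (6) constants are fixed; (7) `P` is monotone
(so it contracts the sup norm).
Proof. (1): `∑_τ` over the `τ` which agree with `σ` off `v`: exactly `up σ v`, `dn σ v`. For fixed `v` sum over the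
pairs `{up, dn}`: `∑_σ F σ = (1/2) ∑_σ (F (up σ v) + F (dn σ v))` (the involution flipping `v`, or
`Function.update` twice). `⟨Pv f, g⟩ = (1/2) ∑_σ (w₊ f₊ + w₋ f₋)(w₊ g₊ + w₋ g₋)/(w₊ + w₋)`, symmetric, and
`⟨f, f⟩ - ⟨Pv f, f⟩ = (1/2) ∑_σ w₊ w₋/(w₊ + w₋) (f₊ - f₋)²`; `Pv (Pv f) = Pv f`, so `⟨Pv f, Pv f⟩ = ⟨Pv f, f⟩`;
(4): Jensen / Cauchy-Schwarz for the average over `v` (`inner_mul_le_norm_mul_norm` or
`(∑ x_v)² ≤ N ∑ x_v²`, `Finset.sum_mul_sq_le_sq_mul_sq`, `sq_sum_le_card_mul_sum_sq`). -/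
def S_PRJ : Prop := ∀ (V : Type) [Fintype V] [DecidableEq V] [Nonempty V] (w : (V → Bool) → ℝ),
  (∀ σ, 0 < w σ) →
  (∀ f σ, ∑ τ, glauber w σ τ * f τ = Pf w f σ) ∧
  (∀ f g, ip w (Pf w f) g = ip w f (Pf w g)) ∧
  (∀ f, ip w f f - ip w (Pf w f) f = dir w f) ∧
  (∀ f, ip w (Pf w f) (Pf w f) ≤ ip w (Pf w f) f) ∧
  (∀ f, 0 ≤ dir w f) ∧
  (∀ c : ℝ, Pf w (fun _ => c) = fun _ => c) ∧
  (∀ f g, (∀ σ, f σ ≤ g σ) → ∀ σ, Pf w f σ ≤ Pf w g σ)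

/-- UPP. A gap gives mixing. Hypothesis PRJ.
Proof. `W = ∑ w`, `π = w/W`, `N = card V`. With `h σ' = (if σ' = σ then W/w σ else 0) - 1`, `∑ w h = 0`; by symmetry (2)
and (1), iterated: `(glauber w ^ t) σ τ = (w τ / W) * (Pf w)^[t] (h + 1) τ`, so
`(glauber w ^ t) σ τ - gibbs w τ = (w τ/W) * h_t τ`, `h_t = (Pf w)^[t] h` (reversibility:
`w σ * (glauber w ^ t) σ τ = w τ * (glauber w ^ t) τ σ`). `∑ w h_t = 0` for all `t` (symmetry with the constant 1).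
For `f` with `∑ w f = 0`: `∑ w f² ≤ ∑ w (f - c)²` for every `c`, so Gap gives `g ⟨f,f⟩ ≤ dir f = ⟨f,f⟩ - ⟨Pf,f⟩`,
`⟨Pf, Pf⟩ ≤ ⟨Pf,f⟩ ≤ (1 - g)⟨f,f⟩ ≤ exp (-g) ⟨f,f⟩`. So `⟨h_t,h_t⟩ ≤ exp (-g t) ⟨h,h⟩ ≤ exp (-g t) W * (W/w σ)`.
Cauchy-Schwarz: `∑ (w/W) |h_t| ≤ √(∑ (w/W) h_t²) ≤ √(exp (-g t) * W/w σ) ≤ √(exp (-g t + K - 2))`, `≤ 1/2` if `g t ≥ K`
(`exp (-2) ≤ 1/4`). -/
def S_UPP : Prop := ∀ (V : Type) [Fintype V] [DecidableEq V] [Nonempty V] (w : (V → Bool) → ℝ) (g K : ℝ)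
  (t : ℕ), (∀ σ, 0 < w σ) → 0 < g → Gap w g → (∀ σ, (∑ τ, w τ) / w σ ≤ Real.exp (K - 2)) → K ≤ g * t →
  Mixed w t

/-- LOW. Mixing gives a gap. Hypothesis PRJ.
Proof. Let `Mixed w t` (so `t ≥ 1`, given). For every `f` with `A ≤ f ≤ B` everywhere, and all `σ, σ'`:
`(Pf w)^[t] f σ - (Pf w)^[t] f σ' = ∑_τ ((glauber^t) σ τ - (glauber^t) σ' τ) (f τ - (A + B)/2) ≤
(1/2 + 1/2) (B - A)/2 = (B - A)/2`. So with `osc_k` the oscillation of `(Pf w)^[k] f`: `osc_(k+t) ≤ osc_k/2`, and it is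
non-increasing, `osc_(jt) ≤ 2^(-j) osc_0`. Let `∑ w f = 0`, `f ≠ 0`, `a_k = ⟨(Pf w)^[k] f, f⟩`. By (2), (4):
`a_(2k) = ⟨P^k f, P^k f⟩ ≥ 0`, `a_(2k+1) = ⟨P (P^k f), P^k f⟩ ≥ ⟨P P^k f, P P^k f⟩ ≥ 0` and `⟨P u, v⟩² ≤ ⟨P u, u⟩ ⟨P v, v⟩`
(discriminant of `⟨P (u + x v), u + x v⟩ ≥ 0`) give `a_(k+1)² ≤ a_k a_(k+2)` for all `k`. So if `a_0 > 0`, `a_k ≥ a_0 (a_1/a_0)^k`
(induction; if `a_1 = 0` trivial). As `∑ w (P^k f) = 0`, `|P^k f| ≤ osc_k` pointwise and `a_k ≤ W * osc_k * osc_0`.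
With `k = jt`: `a_0 ρ^(jt) ≤ W osc_0² 2^(-j)` for all `j`, `ρ = a_1/a_0`; so `ρ^t ≤ 1/2` (otherwise `(2 ρ^t)^j` is
unbounded). Then `ρ ≤ 1 - 1/(2t)` (Bernoulli: `(1 - 1/(2t))^t ≥ 1 - t/(2t) = 1/2`, so `ρ > 1 - 1/(2t)` would give `ρ^t > 1/2`).
Hence `dir f = a_0 - a_1 ≥ a_0/(2t)`. For general `f` subtract the mean `c` (`dir` does not change). -/
def S_LOW : Prop := ∀ (V : Type) [Fintype V] [DecidableEq V] [Nonempty V] (w : (V → Bool) → ℝ) (t : ℕ),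
  (∀ σ, 0 < w σ) → 1 ≤ t → Mixed w t → Gap w (1 / (2 * t))

/-- CMP. Comparison. Proof. If `w ≤ κ w'` and `w' ≤ κ w` (`κ > 0`): `w₊ w₋/(w₊ + w₋) = 1/(1/w₊ + 1/w₋)` is monotone in both
arguments and homogeneous, so `dir w f ≤ κ dir w' f`; and `∑ w' (f - c)² ≤ κ ∑ w (f - c)²`. So
`(g/κ²) ∑ w' (f - c)² ≤ (g/κ) ∑ w (f-c)² ≤ dir w f/κ ≤ dir w' f`. -/
def S_CMP : Prop := ∀ (V : Type) [Fintype V] [DecidableEq V] (w w' : (V → Bool) → ℝ) (g κ : ℝ),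
  (∀ σ, 0 < w σ) → (∀ σ, 0 < w' σ) → 0 ≤ g → 0 < κ → (∀ σ, w σ ≤ κ * w' σ) → (∀ σ, w' σ ≤ κ * w σ) →
  Gap w g → Gap w' (g / κ ^ 2)

/-- HAM. Two sets of the cube at Hamming distance `≥ D`. (`E` a finite type with `m` elements.)
Proof. If one of them is empty, trivial. Let `F x = min_(y ∈ A) dist (x, y)` (`hammingDist`), which changes by at most 1
when one coordinate changes, `F = 0` on `A`, `F ≥ D` on `B`. For every `F : (E → Bool) → ℝ` with this Lipschitz property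
and every `λ`: `(∑_x exp (λ F x)) (∑_y exp (-λ F y)) ≤ 4^m exp (λ² m/4)`. Proof by induction on `m` (it is enough to do
`E = Fin m`, `Fin.consEquiv`/`Fin.cons`; or induct over `Finset` of the coordinates that have been averaged):
put `M x' = (1/λ) log ((exp (λ F(0,x')) + exp (λ F(1,x')))/2)`, `M' x' = -(1/λ) log ((exp (-λ F(0,x')) + exp (-λ F(1,x')))/2)`;
more simply prove `∑_x exp (λ F x) ≤ 2^m exp (λ μ + λ² m/8)`, `μ` the mean of `F` (and the same for `-F`): for the first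
coordinate `exp (λ s) + exp (λ t) ≤ 2 exp (λ (s+t)/2 + λ²/8)` if `|s - t| ≤ 1` (`cosh x ≤ exp (x²/2)`,
`Real.cosh_le_exp_half_sq`), and `x' ↦ (F(0,x') + F(1,x'))/2` is again Lipschitz with the same mean.
Then with `λ = 2D/m`: `|A| |B| exp (λ D) ≤ (∑ exp (-λ F)) (∑ exp (λ F)) ≤ 4^m exp (λ² m/4)`, i.e.
`|A| |B| ≤ 4^m exp (-D²/m)`. (`m = 0`: then `D ≤ 0` if both are nonempty, and `x/0 = 0`.) -/
def S_HAM : Prop := ∀ (E : Type) [Fintype E] [DecidableEq E] (A B : Finset (E → Bool)) (D : ℝ), 0 ≤ D →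
  (∀ x ∈ A, ∀ y ∈ B, D ≤ (hammingDist x y : ℝ)) →
  (A.card : ℝ) * B.card ≤ 4 ^ Fintype.card E * Real.exp (-(D ^ 2 / Fintype.card E))

/-- GEN. The general theorem, for every finite graph. Hypotheses UPP, LOW, CMP, HAM. `N = card V`, `m = card E`.
Proof. `A = {J | ¬ MixGe S}`, `B = {J | MixGe T}`. Let `J ∈ A`: some `t < S` is mixed. `t ≥ 1`: if `Mixed w 0` then `Mixed w 1`
(`∑_τ |(G^1 σ τ) - π τ| = ∑_τ |∑_ρ G σ ρ (G^0 ρ τ - π τ)| ≤ 1/2`, rows of `G` are nonnegative with sum 1, `π` constant in `ρ`); as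
`1 ≤ S` replace `t` by `max t 1 ≤ S`. LOW: `Gap (w_J) (1/(2S))` (`Gap` is monotone in `g`: `dir ≥ 0`, `∑ w (f-c)² ≥ 0`).
If `J'` has Hamming distance `D0` from `J`, then `|H_J σ - H_J' σ| ≤ 2 D0`, `w_J ≤ κ w_J'` and conversely with
`κ = exp (2 β D0)`, so CMP: `Gap (w_J') g'`, `g' = exp (-4 β D0)/(2S)`. `(∑ w)/w σ ≤ 2^N exp (2 β m) ≤ exp (K - 2)` as
`|H| ≤ m` and `log 2 ≤ 1`. UPP: `t' = ⌈K/g'⌉₊` is mixed, so if `J' ∈ B`, `T ≤ t' ≤ K/g' + 1 ≤ 3 K S exp (4 β D0)`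
(`K S ≥ 1`). So `D0 ≥ D := log (T/(3KS))/(4β)`, and `D ≥ 0` by `3KS ≤ T`. HAM (with `Set.ncard`/`Finset.card`). -/
def S_GEN : Prop := ∀ (V E : Type) [Fintype V] [DecidableEq V] [Nonempty V] [Fintype E] [DecidableEq E]
  (a b : E → V) (β K S T : ℝ), 0 < β → 1 ≤ S → K = 2 * β * Fintype.card E + Fintype.card V + 2 →
  3 * K * S ≤ T →
  prob {J : E → Bool | ¬ MixGe (weight a b β J) S} * prob {J : E → Bool | MixGe (weight a b β J) T} ≤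
    Real.exp (-(Real.log (T / (3 * K * S)) ^ 2 / (16 * β ^ 2 * Fintype.card E)))

/-- TOR. The torus. Hypothesis GEN. `s = n + 3`, `N = s^d`, `m = d s^d`, `K = 2 β d s^d + s^d + 2 ≤ (2 β d + 3) s^d`.
(1) is GEN for the torus. (2): `S = exp (s^ε - s^ε') `… with `T = exp (x + s^ε)`, `S = exp x`, any `x ≥ 0`: for large `n`
`log (T/(3KS)) = s^ε - log (3K) ≥ s^ε/2`, so the product is at most `exp (-s^(2ε)/(64 β² d s^d)) ≤ exp (-2 s^δ)` for large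
`n`, as `2ε - d > δ`. If `P(B) ≥ exp (-s^δ)`, then `P(A) ≤ exp (-s^δ)`, and `P(A) = 1 - probMixGe … S`. -/
def S_TOR : Prop :=
  (∀ (d n : ℕ) (β S T : ℝ), 1 ≤ d → 0 < β → 1 ≤ S → 3 * ((2 * β * d + 3) * (n + 3 : ℝ) ^ d) * S ≤ T →
    (1 - probMixGe d n β S) * probMixGe d n β T ≤
      Real.exp (-(Real.log (T / (3 * ((2 * β * d + 3) * (n + 3 : ℝ) ^ d) * S)) ^ 2 /
        (16 * β ^ 2 * d * (n + 3 : ℝ) ^ d)))) ∧
  (∀ (d : ℕ) (β ε δ : ℝ), 1 ≤ d → 0 < β → 0 < ε → (d : ℝ) / 2 < ε → δ < 2 * ε - d → ∃ n0 : ℕ, ∀ n ≥ n0,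
    ∀ x : ℝ, 0 ≤ x → probMixGe d n β (Real.exp (x + (n + 3 : ℝ) ^ ε)) < Real.exp (-(n + 3 : ℝ) ^ δ) ∨
      1 - Real.exp (-(n + 3 : ℝ) ^ δ) ≤ probMixGe d n β (Real.exp x))

end Pool.Agent.SGZ
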